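import Pool.Agent.GM53.BlkS18

/-!
# SG33/Cond: conditioning on the part of the random set up to `h` (MP_ff230c_nt)
-/

set_option autoImplicit false

namespace Pool.Agent.SG33

open MeasureTheory ProbabilityTheory Filter Topology Finset Pool.Agent.CR53 Pool.Agent.GM53

variable {Ω : Type*} [mΩ : MeasurableSpace Ω] {μ : Measure Ω} {E : ℕ → Set Ω}

open Classical in
/-- the part of the random set up to `h` -/
noncomputable def XX (E : ℕ → Set Ω) (h : ℕ) (ω : Ω) : Finset ℕ :=
  (range (h + 1)).filter (fun m => ω ∈ E m)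

omit mΩ in
lemma meas_XX (h : ℕ) (s : Finset ℕ) : MeasurableSet[sig E {m | m ≤ h}] {ω | XX E h ω = s} := by
  classical
  by_cases hs : s ⊆ range (h + 1)
  · have e : {ω | XX E h ω = s} =
        (⋂ m ∈ s, E m) ∩ ⋂ m ∈ (range (h + 1)) \ s, (E m)ᶜ := by
      ext ω
      simp only [Set.mem_ofPred_eq, Set.mem_inter_iff, Set.mem_iInter, Set.mem_compl_iff,
        Finset.mem_sdiff, Finset.mem_range]
      constructor
      · intro hx
        constructor
        · intro m hm
          rw [← hx] at hm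
          unfold XX at hm
          rw [mem_filter] at hm
          exact hm.2
        · rintro m ⟨hm1, hm2⟩ hm3
          apply hm2
          rw [← hx]
          unfold XX
          rw [mem_filter]
          exact ⟨mem_range.2 hm1, hm3⟩
      · rintro ⟨h1, h2⟩
        ext m
        unfold XX
        rw [mem_filter]
        constructor
        · rintro ⟨h3, h4⟩
          by_contra h5
          exact h2 m ⟨mem_range.1 h3, h5⟩ h4
        · intro h3
          exact ⟨hs h3, h1 m h3⟩
    rw [e]
    refine MeasurableSet.inter ?_ ?_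
    · refine @Finset.measurableSet_biInter _ _ (sig E {m | m ≤ h}) _ s fun m hm => meas_E ?_
      have := mem_range.1 (hs hm)
      show m ≤ h
      omega
    · refine @Finset.measurableSet_biInter _ _ (sig E {m | m ≤ h}) _ _ fun m hm =>
        MeasurableSet.compl (meas_E ?_)
      have := mem_range.1 (Finset.mem_sdiff.1 hm).1
      show m ≤ h
      omega
  · have e : {ω | XX E h ω = s} = ∅ := by
      ext ω
      simp only [Set.mem_ofPred_eq, Set.mem_empty_iff_false, iff_false]
      intro hx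
      apply hs
      rw [← hx]
      unfold XX
      exact filter_subset _ _
    rw [e]
    exact @MeasurableSet.empty _ (sig E {m | m ≤ h})

/-- All events of a finite set fail. -/
lemma none_prob [IsProbabilityMeasure μ] (hE : ∀ m, MeasurableSet (E m)) (hi : iIndepSet E μ)
    (T : Finset ℕ) (b : ℕ) (q : ℝ) (h0 : 0 ≤ q) (h1 : q ≤ 1) (hb : b ≤ T.card)
    (hq : ∀ m ∈ T, q ≤ μ.real (E m)) :
    μ.real {ω | ∀ m ∈ T, ω ∉ E m} ≤ (1 - q) ^ b := by
  classical
  obtain ⟨T', hT', hcard⟩ := exists_subset_card_eq hb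
  have hsub : {ω | ∀ m ∈ T, ω ∉ E m} ⊆
      {ω | ∀ i < b, ∃ m ∈ (fun i => if hi : i < b then
        ({((T'.equivFinOfCardEq hcard).symm ⟨i, hi⟩ : ℕ)} : Finset ℕ) else ∅) i, ω ∉ E m} := by
    intro ω hω i hi'
    refine ⟨((T'.equivFinOfCardEq hcard).symm ⟨i, hi'⟩ : ℕ), ?_, ?_⟩
    · beta_reduce
      rw [dif_pos hi']
      exact mem_singleton_self _
    · exact hω _ (hT' ((T'.equivFinOfCardEq hcard).symm ⟨i, hi'⟩).2)
  refine (measureReal_mono hsub).trans ?_
  have := blk_prob_P hE hi (fun i => if hi : i < b then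
        ({((T'.equivFinOfCardEq hcard).symm ⟨i, hi⟩ : ℕ)} : Finset ℕ) else ∅) b 1 q h0 h1
    (by
      intro i hi1 j hj1 hij
      beta_reduce
      rw [dif_pos hi1, dif_pos hj1, disjoint_singleton]
      intro h
      have h2 := (T'.equivFinOfCardEq hcard).symm.injective (Subtype.ext h)
      rw [Fin.mk.injEq] at h2
      exact hij h2)
    (by
      intro i hi1
      beta_reduce
      rw [dif_pos hi1, card_singleton])
    (by
      intro i hi1 m hm
      beta_reduce at hm
      rw [dif_pos hi1, mem_singleton] at hm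
      rw [hm]
      exact hq _ (hT' ((T'.equivFinOfCardEq hcard).symm ⟨i, hi1⟩).2))
  rwa [pow_one] at this

/-- Given the random set up to `h`, at least `b` determined positions beyond `h` all fail. -/
theorem cond [IsProbabilityMeasure μ] (hE : ∀ m, MeasurableSet (E m)) (hi : iIndepSet E μ)
    (h b : ℕ) (q : ℝ) (h0 : 0 ≤ q) (h1 : q ≤ 1) (T : Finset ℕ → Finset ℕ)
    (hT : ∀ s, ∀ m ∈ T s, h < m ∧ q ≤ μ.real (E m)) :
    μ.real {ω | b ≤ (T (XX E h ω)).card ∧ ∀ m ∈ T (XX E h ω), ω ∉ E m} ≤ (1 - q) ^ b := by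
  classical
  have hsub : {ω | b ≤ (T (XX E h ω)).card ∧ ∀ m ∈ T (XX E h ω), ω ∉ E m} ⊆
      ⋃ s ∈ (range (h + 1)).powerset.filter (fun s => b ≤ (T s).card),
        ({ω | XX E h ω = s} ∩ {ω | ∀ m ∈ T s, ω ∉ E m}) := by
    rintro ω ⟨hω1, hω2⟩
    simp only [Set.mem_iUnion]
    refine ⟨XX E h ω, mem_filter.2 ⟨mem_powerset.2 ?_, hω1⟩, rfl, hω2⟩
    unfold XX
    exact filter_subset _ _
  have hq0 : 0 ≤ 1 - q := by linarith
  have hpow : 0 ≤ (1 - q) ^ b := pow_nonneg hq0 b
  refine (measureReal_mono hsub (measure_ne_top _ _)).trans ?_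
  refine (measureReal_biUnion_finset_le _ _).trans ?_
  have hterm : ∀ s ∈ (range (h + 1)).powerset.filter (fun s => b ≤ (T s).card),
      μ.real ({ω | XX E h ω = s} ∩ {ω | ∀ m ∈ T s, ω ∉ E m}) ≤
        μ.real {ω | XX E h ω = s} * (1 - q) ^ b := by
    intro s hs
    have hb := (mem_filter.1 hs).2
    have hind := sig_indep hE hi (S := {m | m ≤ h}) (T := ((T s : Finset ℕ) : Set ℕ)) (by
      rw [Set.disjoint_left]
      intro m hm hm2
      have := (hT s m hm2).1
      have hm' : m ≤ h := hm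
      omega)
    have hmeas : MeasurableSet[sig E ((T s : Finset ℕ) : Set ℕ)] {ω | ∀ m ∈ T s, ω ∉ E m} := by
      have e : {ω | ∀ m ∈ T s, ω ∉ E m} = ⋂ m ∈ T s, (E m)ᶜ := by
        ext ω; simp
      rw [e]
      exact @Finset.measurableSet_biInter _ _ (sig E ((T s : Finset ℕ) : Set ℕ)) _ _
        fun m hm => MeasurableSet.compl (meas_E hm)
    have h4 := (Indep_iff _ _ _).1 hind {ω | XX E h ω = s} {ω | ∀ m ∈ T s, ω ∉ E m}
      (meas_XX h s) hmeas
    rw [Measure.real, h4, ENNReal.toReal_mul]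
    exact mul_le_mul_of_nonneg_left
      (none_prob hE hi (T s) b q h0 h1 hb fun m hm => (hT s m hm).2) measureReal_nonneg
  refine (sum_le_sum hterm).trans ?_
  rw [← sum_mul]
  have hsum : ∑ s ∈ (range (h + 1)).powerset.filter (fun s => b ≤ (T s).card),
      μ.real {ω | XX E h ω = s} ≤ 1 := by
    rw [← measureReal_biUnion_finset]
    · exact measureReal_le_one
    · intro s _ t _ hst
      refine Set.disjoint_left.2 fun ω h2 h3 => hst ?_
      exact (show XX E h ω = s from h2).symm.trans h3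
    · intro s _
      exact (sig_le hE _) _ (meas_XX h s)
  calc (∑ s ∈ (range (h + 1)).powerset.filter (fun s => b ≤ (T s).card),
      μ.real {ω | XX E h ω = s}) * (1 - q) ^ b ≤ 1 * (1 - q) ^ b :=
        mul_le_mul_of_nonneg_right hsum hpow
    _ = (1 - q) ^ b := one_mul _

end Pool.Agent.SG33
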