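import Mathlib

/-!
# SG33/Det: deterministic part (MP_ff230c_nt)

`s` is the part of the random set in `[0, h]`, `g s m` the number of its elements up to `m`, `R q` the set of
numbers that have to be in the random set for the value `q`.
-/

set_option autoImplicit false

namespace Pool.Agent.SG33

open Finset

/-- number of elements of `s` up to `m` -/
def g (s : Finset ℕ) (m : ℕ) : ℕ := (s.filter (fun x => x ≤ m)).card

lemma g_succ (s : Finset ℕ) (m : ℕ) : g s (m + 1) ≤ g s m + 1 := by
  unfold g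
  have h : s.filter (fun x => x ≤ m + 1) ⊆ insert (m + 1) (s.filter (fun x => x ≤ m)) := by
    intro x hx
    rw [mem_filter] at hx
    rw [mem_insert, mem_filter]
    rcases Nat.lt_or_ge m x with h1 | h1
    · left; omega
    · right; exact ⟨hx.1, h1⟩
  exact (card_le_card h).trans (card_insert_le _ _)

lemma g_zero (s : Finset ℕ) : g s 0 ≤ 1 := by
  unfold g
  have h : s.filter (fun x => x ≤ 0) ⊆ {0} := by
    intro x hx
    rw [mem_filter] at hx
    rw [mem_singleton]
    omega
  exact (card_le_card h).trans (by simp)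

/-- every value up to the number of elements is attained -/
lemma g_attained (s : Finset ℕ) (h q : ℕ) (hs : ∀ x ∈ s, x ≤ h) (hq : q ≤ s.card) (h2 : 2 ≤ q) :
    ∃ m, 1 ≤ m ∧ m ≤ h ∧ g s m = q := by
  classical
  have hh : q ≤ g s h := by
    unfold g
    rw [filter_true_of_mem hs]
    exact hq
  have hex : ∃ m, q ≤ g s m := ⟨h, hh⟩
  have hle : Nat.find hex ≤ h := Nat.find_min' hex hh
  have h1 : q ≤ g s (Nat.find hex) := Nat.find_spec hex
  rcases Nat.eq_zero_or_pos (Nat.find hex) with h0 | h0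
  · rw [h0] at h1
    have := g_zero s
    omega
  · obtain ⟨k, hk⟩ : ∃ k, Nat.find hex = k + 1 := ⟨Nat.find hex - 1, by omega⟩
    have h3 : ¬ q ≤ g s k := Nat.find_min hex (by omega)
    have h4 := g_succ s k
    rw [← hk] at h4
    exact ⟨Nat.find hex, h0, hle, by omega⟩

/-- the good positions -/
def GG (R : ℕ → Finset ℕ) (h : ℕ) (s : Finset ℕ) : Finset ℕ :=
  (range (h + 1)).filter (fun m => 1 ≤ m ∧ R (g s m) ⊆ s ∧ g s m ≤ s.card)

lemma GG_card (R : ℕ → Finset ℕ) (h b K : ℕ) (s : Finset ℕ) (hs : ∀ x ∈ s, x ≤ h)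
    (hK : K ≤ s.card) (f : ℕ → ℕ) (hf : ∀ i < b, 2 ≤ f i ∧ f i ≤ K ∧ R (f i) ⊆ s)
    (hinj : ∀ i < b, ∀ j < b, f i = f j → i = j) : b ≤ (GG R h s).card := by
  classical
  have hex : ∀ i, ∃ m, i < b → 1 ≤ m ∧ m ≤ h ∧ g s m = f i := by
    intro i
    by_cases hi : i < b
    · obtain ⟨h1, h2, h3⟩ := hf i hi
      obtain ⟨m, hm⟩ := g_attained s h (f i) hs (by omega) h1
      exact ⟨m, fun _ => hm⟩
    · exact ⟨0, fun h => absurd h hi⟩
  choose m hm using hex
  have h1 : (range b).card ≤ (GG R h s).card := by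
    apply card_le_card_of_injOn m
    · intro i hi
      have hi' := mem_range.1 (mem_coe.1 hi)
      obtain ⟨h1, h2, h3⟩ := hm i hi'
      obtain ⟨k1, k2, k3⟩ := hf i hi'
      refine mem_coe.2 (mem_filter.2 ⟨mem_range.2 (by omega), h1, ?_, ?_⟩)
      · rw [h3]; exact k3
      · rw [h3]; omega
    · intro i hi j hj hij
      have hi' := mem_range.1 (mem_coe.1 hi)
      have hj' := mem_range.1 (mem_coe.1 hj)
      apply hinj i hi' j hj'
      rw [← (hm i hi').2.2, ← (hm j hj').2.2, hij]
  simpa using h1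

end Pool.Agent.SG33
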