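import Pool.Agent.SG33.Gap

/-!
# SG33/DetB: deterministic part with small primes (MP_ff230c_nt)
-/

set_option autoImplicit false

namespace Pool.Agent.SG33

open Finset

/-- the element of rank `q` -/
lemma g_elem (s : Finset ℕ) (h q : ℕ) (hq : q ≤ g s h) (h1 : 1 ≤ q) :
    ∃ x ∈ s, x ≤ h ∧ g s x = q := by
  classical
  have hex : ∃ m, q ≤ g s m := ⟨h, hq⟩
  have hle : Nat.find hex ≤ h := Nat.find_min' hex hq
  have h2 : q ≤ g s (Nat.find hex) := Nat.find_spec hex
  obtain ⟨m, hm⟩ : ∃ m, m = Nat.find hex := ⟨_, rfl⟩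
  have hmin : ∀ k, k < m → ¬ q ≤ g s k := by
    intro k hk
    rw [hm] at hk
    exact Nat.find_min hex hk
  rw [← hm] at hle h2
  rcases Nat.eq_zero_or_pos m with h0 | h0
  · subst h0
    have h3 := g_zero s
    have h4 : 0 < g s 0 := by omega
    unfold g at h4
    obtain ⟨y, hy⟩ := card_pos.1 h4
    obtain ⟨h5, h6⟩ := mem_filter.1 hy
    have h7 : y = 0 := by omega
    subst h7
    exact ⟨0, h5, by omega, by omega⟩
  · obtain ⟨k, hk⟩ : ∃ k, m = k + 1 := ⟨m - 1, by omega⟩
    have h3 : ¬ q ≤ g s k := hmin k (by omega)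
    have h4 := g_succ s k
    rw [← hk] at h4
    refine ⟨m, ?_, hle, by omega⟩
    by_contra hcon
    apply h3
    refine h2.trans ?_
    unfold g
    apply card_le_card
    intro x hx
    rw [mem_filter] at hx ⊢
    refine ⟨hx.1, ?_⟩
    rcases Nat.lt_or_ge k x with h5 | h5
    · exfalso
      have h6 : x = m := by omega
      rw [h6] at hx
      exact hcon hx.1
    · exact h5

/-- the good positions -/
def GP (R : ℕ → Finset ℕ) (P n h : ℕ) (s : Finset ℕ) : Finset ℕ :=
  (range (h + 1)).filter (fun m => 1 ≤ m ∧ R (g s m) ⊆ s ∧ (n - m).Coprime P)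

lemma GP_card (R : ℕ → Finset ℕ) (P n h b : ℕ) (s : Finset ℕ) (hP : 0 < P) (hn : h < n)
    (q x : ℕ → ℕ) (hx : ∀ i < b, 1 ≤ x i ∧ x i + P ≤ h ∧ g s (x i) = q i ∧ R (q i) ⊆ s ∧
      ∀ y ∈ s, x i < y → x i + P < y)
    (hinj : ∀ i < b, ∀ j < b, q i = q j → i = j) : b ≤ (GP R P n h s).card := by
  classical
  have hex : ∀ i, ∃ m, i < b → 1 ≤ m ∧ m ≤ h ∧ g s m = q i ∧ (n - m).Coprime P := by
    intro i
    by_cases hi : i < b
    · obtain ⟨h0, h1, h2, h3, h4⟩ := hx i hi
      have hr : (n - 1 - x i) % P < P := Nat.mod_lt _ hP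
      refine ⟨x i + (n - 1 - x i) % P, fun _ => ⟨by omega, by omega, ?_, ?_⟩⟩
      · rw [← h2]
        unfold g
        congr 1
        ext m
        rw [mem_filter, mem_filter]
        constructor
        · rintro ⟨h5, h6⟩
          refine ⟨h5, ?_⟩
          by_contra hcon
          have := h4 m h5 (by omega)
          omega
        · rintro ⟨h5, h6⟩
          exact ⟨h5, by omega⟩
      · have h5 := Nat.div_add_mod (n - 1 - x i) P
        have h6 : n - (x i + (n - 1 - x i) % P) = P * ((n - 1 - x i) / P) + 1 := by omega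
        rw [h6, mul_comm]
        exact (Nat.coprime_mul_right_add_left 1 P _).2 (Nat.coprime_one_left P)
    · exact ⟨0, fun h => absurd h hi⟩
  choose m hm using hex
  have h1 : (range b).card ≤ (GP R P n h s).card := by
    apply card_le_card_of_injOn m
    · intro i hi
      have hi' := mem_range.1 (mem_coe.1 hi)
      obtain ⟨h0, h1, h2, h3⟩ := hm i hi'
      obtain ⟨k0, k1, k2, k3, -⟩ := hx i hi'
      refine mem_coe.2 (mem_filter.2 ⟨mem_range.2 (by omega), h0, ?_, h3⟩)
      rw [h2]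
      exact k3
    · intro i hi j hj hij
      have hi' := mem_range.1 (mem_coe.1 hi)
      have hj' := mem_range.1 (mem_coe.1 hj)
      apply hinj i hi' j hj'
      rw [← (hm i hi').2.2.1, ← (hm j hj').2.2.1, hij]
  simpa using h1

end Pool.Agent.SG33
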