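import Pool.Agent.SG33.Det
import Pool.Agent.SG33.Cond

/-!
# SG33/Fail: the probability of failure for one `n` (MP_ff230c_nt)
-/

set_option autoImplicit false

namespace Pool.Agent.SG33

open MeasureTheory ProbabilityTheory Filter Topology Finset Pool.Agent.CR53 Pool.Agent.GM53

variable {Ω : Type*} [mΩ : MeasurableSpace Ω] {μ : Measure Ω} {E : ℕ → Set Ω}

/-- The number of elements of `A` up to `x`. -/
noncomputable def pc (A : Set ℕ) (x : ℕ) : ℕ := {m : ℕ | m ∈ A ∧ m ≤ x}.ncard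

omit mΩ in
lemma pc_eq (h x : ℕ) (hx : x ≤ h) (ω : Ω) : pc {m | ω ∈ E m} x = g (XX E h ω) x := by
  classical
  unfold pc g XX
  have e : {m : ℕ | m ∈ {m | ω ∈ E m} ∧ m ≤ x} =
      ((((range (h + 1)).filter (fun m => ω ∈ E m)).filter (fun m => m ≤ x) : Finset ℕ) :
        Set ℕ) := by
    ext m
    simp only [Set.mem_ofPred_eq, coe_filter, mem_filter, Finset.mem_range]
    constructor
    · rintro ⟨h1, h2⟩
      exact ⟨⟨by omega, h1⟩, h2⟩
    · rintro ⟨⟨-, h1⟩, h2⟩
      exact ⟨h1, h2⟩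
  rw [e, Set.ncard_coe_finset]

/-- The failure event. -/
def Bad (E : ℕ → Set Ω) (R : ℕ → Finset ℕ) (n : ℕ) : Set Ω :=
  {ω | ¬ ∃ p, ω ∈ E p ∧ p < n ∧ ∀ x ∈ R (pc {m | ω ∈ E m} (n - p)), ω ∈ E x}

/-- Data for the candidates. -/
structure Cand (R : ℕ → Finset ℕ) (f : ℕ → ℕ) (t0 b h : ℕ) : Prop where
  lo : ∀ t, t0 ≤ t → t < t0 + b ^ 3 → 2 ≤ f t ∧ f t ≤ b ^ 4
  inj : ∀ t t', f t = f t' → t = t'
  card : ∀ q, (R q).card ≤ 2
  mem : ∀ t, t0 ≤ t → t < t0 + b ^ 3 → ∀ x ∈ R (f t), 3 ≤ x ∧ x ≤ h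
  disj : ∀ t t', t0 ≤ t → t < t0 + b ^ 3 → t0 ≤ t' → t' < t0 + b ^ 3 → t ≠ t' →
    Disjoint (R (f t)) (R (f t'))

theorem fail_le [IsProbabilityMeasure μ] (hE : ∀ m, MeasurableSet (E m)) (hi : iIndepSet E μ)
    (hp : ∀ m : ℕ, 3 ≤ m → μ.real (E m) = 1 / Real.log m) {R : ℕ → Finset ℕ} {f : ℕ → ℕ}
    {t0 b h n : ℕ} (hc : Cand R f t0 b h) (hb : 1 ≤ b) (hlog : 1 ≤ Real.log n)
    (hh : b ^ 7 + 3 ≤ h) (hn : 2 * h < n) :
    μ.real (Bad E R n) ≤ ((b : ℝ) ^ 4 + b + 1) * (1 - (1 / Real.log n) ^ 2) ^ b := by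
  classical
  obtain ⟨q, hq⟩ : ∃ q : ℝ, q = 1 / Real.log n := ⟨_, rfl⟩
  rw [← hq]
  have hq0 : 0 ≤ q := by rw [hq]; positivity
  have hq1 : q ≤ 1 := by rw [hq, div_le_one (by linarith)]; exact hlog
  have hprob : ∀ m : ℕ, 3 ≤ m → m ≤ n → q ≤ μ.real (E m) := by
    intro m h3 hm
    rw [hp m h3, hq]
    have h1 : 0 < Real.log m := Real.log_pos (by exact_mod_cast (by omega : 1 < m))
    have h2 : Real.log m ≤ Real.log n :=
      Real.log_le_log (by exact_mod_cast (by omega : 0 < m)) (by exact_mod_cast hm)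
    exact one_div_le_one_div_of_le h1 h2
  have hqq : q ^ 2 ≤ q := by nlinarith
  have hqq0 : 0 ≤ q ^ 2 := by positivity
  obtain ⟨D, hD⟩ : ∃ D : ℝ, D = (1 - q ^ 2) ^ b := ⟨_, rfl⟩
  rw [← hD]
  have hbase0 : 0 ≤ 1 - q ^ 2 := by linarith
  have hbase1 : 1 - q ^ 2 ≤ 1 := by linarith
  have hb2 : b ≤ b ^ 2 := Nat.le_self_pow (by norm_num) b
  have hb3 : b ≤ b ^ 3 := Nat.le_self_pow (by norm_num) b
  -- the three kinds of failure
  obtain ⟨F1, hF1⟩ : ∃ F1 : ℕ → Set Ω, F1 = fun i => {ω | ∀ j < b ^ 3,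
      ∃ m ∈ (fun j => ({3 + i * b ^ 3 + j} : Finset ℕ)) j, ω ∉ E m} := ⟨_, rfl⟩
  obtain ⟨F2, hF2⟩ : ∃ F2 : ℕ → Set Ω, F2 = fun i => {ω | ∀ j < b ^ 2,
      ∃ m ∈ (fun j => R (f (t0 + i * b ^ 2 + j))) j, ω ∉ E m} := ⟨_, rfl⟩
  obtain ⟨T, hTdef⟩ : ∃ T : Finset ℕ → Finset ℕ, T = fun s => (GG R h s).image (fun m => n - m) :=
    ⟨_, rfl⟩
  obtain ⟨F3, hF3⟩ : ∃ F3 : Set Ω, F3 = {ω | b ≤ (T (XX E h ω)).card ∧
      ∀ m ∈ T (XX E h ω), ω ∉ E m} := ⟨_, rfl⟩
  have hindex1 : ∀ i < b ^ 4, ∀ j < b ^ 3, 3 + i * b ^ 3 + j < b ^ 7 + 3 := by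
    intro i hi' j hj
    have h1 : (i + 1) * b ^ 3 ≤ b ^ 4 * b ^ 3 := Nat.mul_le_mul_right _ hi'
    have h2 : b ^ 4 * b ^ 3 = b ^ 7 := by ring
    have h3 : (i + 1) * b ^ 3 = i * b ^ 3 + b ^ 3 := by ring
    omega
  have hindex2 : ∀ i < b, ∀ j < b ^ 2, t0 ≤ t0 + i * b ^ 2 + j ∧ t0 + i * b ^ 2 + j < t0 + b ^ 3 := by
    intro i hi' j hj
    have h1 : (i + 1) * b ^ 2 ≤ b * b ^ 2 := Nat.mul_le_mul_right _ hi'
    have h2 : b * b ^ 2 = b ^ 3 := by ring
    have h3 : (i + 1) * b ^ 2 = i * b ^ 2 + b ^ 2 := by ring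
    omega
  have hP1 : ∀ i < b ^ 4, μ.real (F1 i) ≤ D := by
    intro i hi'
    rw [hF1]
    have h1 := blk_prob_P hE hi (fun j => ({3 + i * b ^ 3 + j} : Finset ℕ)) (b ^ 3) 1 q hq0 hq1
      (by
        intro j _ j' _ hjj
        beta_reduce
        rw [disjoint_singleton]
        omega)
      (by intro j _; beta_reduce; rw [card_singleton])
      (by
        intro j hj m hm
        beta_reduce at hm
        rw [mem_singleton] at hm
        have := hindex1 i hi' j hj
        exact hprob m (by omega) (by omega))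
    rw [pow_one] at h1
    refine h1.trans ?_
    rw [hD]
    calc (1 - q) ^ (b ^ 3) ≤ (1 - q) ^ b := pow_le_pow_of_le_one (by linarith) (by linarith) hb3
      _ ≤ (1 - q ^ 2) ^ b := pow_le_pow_left₀ (by linarith) (by linarith) b
  have hP2 : ∀ i < b, μ.real (F2 i) ≤ D := by
    intro i hi'
    rw [hF2]
    have h1 := blk_prob_P hE hi (fun j => R (f (t0 + i * b ^ 2 + j))) (b ^ 2) 2 q hq0 hq1
      (by
        intro j hj j' hj' hjj
        beta_reduce
        obtain ⟨h2, h3⟩ := hindex2 i hi' j hj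
        obtain ⟨h4, h5⟩ := hindex2 i hi' j' hj'
        exact hc.disj _ _ h2 h3 h4 h5 (by omega))
      (by intro j _; exact hc.card _)
      (by
        intro j hj m hm
        obtain ⟨h2, h3⟩ := hindex2 i hi' j hj
        obtain ⟨h4, h5⟩ := hc.mem _ h2 h3 m hm
        exact hprob m h4 (by omega))
    refine h1.trans ?_
    rw [hD]
    exact pow_le_pow_of_le_one hbase0 hbase1 hb2
  have hP3 : μ.real F3 ≤ D := by
    rw [hF3]
    refine (cond hE hi h b q hq0 hq1 T ?_).trans ?_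
    · intro s m hm
      rw [hTdef] at hm
      beta_reduce at hm
      rw [mem_image] at hm
      obtain ⟨m', hm', rfl⟩ := hm
      unfold GG at hm'
      rw [mem_filter, Finset.mem_range] at hm'
      exact ⟨by omega, hprob _ (by omega) (by omega)⟩
    · rw [hD]
      exact pow_le_pow_left₀ (by linarith) (by linarith) b
  -- the inclusion
  have hsub : Bad E R n ⊆ ((⋃ i ∈ range (b ^ 4), F1 i) ∪ ⋃ i ∈ range b, F2 i) ∪ F3 := by
    intro ω hω
    by_contra hcon
    simp only [Set.mem_union, Set.mem_iUnion, Finset.mem_range, not_or, not_exists] at hcon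
    obtain ⟨⟨h1, h2⟩, h3⟩ := hcon
    obtain ⟨s, hs⟩ : ∃ s, s = XX E h ω := ⟨_, rfl⟩
    have hmem : ∀ x, x ≤ h → (x ∈ s ↔ ω ∈ E x) := by
      intro x hx
      rw [hs]
      unfold XX
      rw [mem_filter, Finset.mem_range]
      constructor
      · exact fun h => h.2
      · exact fun h => ⟨by omega, h⟩
    have hsle : ∀ x ∈ s, x ≤ h := by
      intro x hx
      rw [hs] at hx
      unfold XX at hx
      rw [mem_filter, Finset.mem_range] at hx
      omega
    -- many elements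
    have hK : b ^ 4 ≤ s.card := by
      have hex : ∀ i, ∃ j, i < b ^ 4 → j < b ^ 3 ∧ 3 + i * b ^ 3 + j ∈ s := by
        intro i
        by_cases hi' : i < b ^ 4
        · have h4 := h1 i hi'
          rw [hF1] at h4
          simp only [Set.mem_ofPred_eq, not_forall, Finset.mem_singleton, exists_eq_left,
            not_not] at h4
          obtain ⟨j, hj, hj2⟩ := h4
          have := hindex1 i hi' j hj
          exact ⟨j, fun _ => ⟨hj, (hmem _ (by omega)).2 hj2⟩⟩
        · exact ⟨0, fun h => absurd h hi'⟩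
      choose j hj using hex
      have h5 : (range (b ^ 4)).card ≤ s.card := by
        apply card_le_card_of_injOn (fun i => 3 + i * b ^ 3 + j i)
        · intro i hi'
          exact (hj i (mem_range.1 (mem_coe.1 hi'))).2
        · intro i hi' i' hi'' hii
          have k1 := (hj i (mem_range.1 (mem_coe.1 hi'))).1
          have k2 := (hj i' (mem_range.1 (mem_coe.1 hi''))).1
          have hii' : 3 + i * b ^ 3 + j i = 3 + i' * b ^ 3 + j i' := hii
          by_contra hne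
          rcases Nat.lt_or_gt_of_ne hne with hl | hl
          · have h6 : (i + 1) * b ^ 3 ≤ i' * b ^ 3 := Nat.mul_le_mul_right _ hl
            have h7 : (i + 1) * b ^ 3 = i * b ^ 3 + b ^ 3 := by ring
            omega
          · have h6 : (i' + 1) * b ^ 3 ≤ i * b ^ 3 := Nat.mul_le_mul_right _ hl
            have h7 : (i' + 1) * b ^ 3 = i' * b ^ 3 + b ^ 3 := by ring
            omega
      simpa using h5
    -- candidates
    have hex : ∀ i, ∃ j, i < b → j < b ^ 2 ∧ R (f (t0 + i * b ^ 2 + j)) ⊆ s := by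
      intro i
      by_cases hi' : i < b
      · have h4 := h2 i hi'
        rw [hF2] at h4
        simp only [Set.mem_ofPred_eq, not_forall, not_exists, not_and, not_not] at h4
        obtain ⟨j, hj, hj2⟩ := h4
        obtain ⟨k1, k2⟩ := hindex2 i hi' j hj
        refine ⟨j, fun _ => ⟨hj, fun x hx => ?_⟩⟩
        exact (hmem x (hc.mem _ k1 k2 x hx).2).2 (hj2 x hx)
      · exact ⟨0, fun h => absurd h hi'⟩
    choose j hj using hex
    have hG := GG_card R h b (b ^ 4) s hsle hK (fun i => f (t0 + i * b ^ 2 + j i))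
      (by
        intro i hi'
        obtain ⟨k0, k3⟩ := hj i hi'
        obtain ⟨k1, k2⟩ := hindex2 i hi' (j i) k0
        obtain ⟨k4, k5⟩ := hc.lo _ k1 k2
        exact ⟨k4, k5, k3⟩)
      (by
        intro i hi' i' hi'' hii
        have h5 := hc.inj _ _ hii
        have k1 := (hj i hi').1
        have k2 := (hj i' hi'').1
        by_contra hne
        rcases Nat.lt_or_gt_of_ne hne with hl | hl
        · have h6 : (i + 1) * b ^ 2 ≤ i' * b ^ 2 := Nat.mul_le_mul_right _ hl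
          have h7 : (i + 1) * b ^ 2 = i * b ^ 2 + b ^ 2 := by ring
          omega
        · have h6 : (i' + 1) * b ^ 2 ≤ i * b ^ 2 := Nat.mul_le_mul_right _ hl
          have h7 : (i' + 1) * b ^ 2 = i' * b ^ 2 + b ^ 2 := by ring
          omega)
    apply h3
    rw [hF3]
    refine ⟨?_, ?_⟩
    · rw [← hs, hTdef]
      beta_reduce
      rw [card_image_of_injOn]
      · exact hG
      · intro m hm m' hm' hmm
        have hm1 := (mem_filter.1 (mem_coe.1 hm)).1
        have hm2 := (mem_filter.1 (mem_coe.1 hm')).1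
        rw [Finset.mem_range] at hm1 hm2
        have hmm' : n - m = n - m' := hmm
        omega
    · intro x hx hxE
      rw [← hs, hTdef] at hx
      beta_reduce at hx
      rw [mem_image] at hx
      obtain ⟨m, hm, rfl⟩ := hx
      unfold GG at hm
      rw [mem_filter, Finset.mem_range] at hm
      obtain ⟨hm1, hm2, hm3, -⟩ := hm
      apply hω
      refine ⟨n - m, hxE, by omega, ?_⟩
      have e : n - (n - m) = m := by omega
      rw [e, pc_eq h m (by omega) ω, ← hs]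
      intro y hy
      have hy' := hm3 hy
      exact (hmem y (hsle y hy')).1 hy'
  have hD0 : 0 ≤ D := by rw [hD]; positivity
  have hS1 : μ.real (⋃ i ∈ range (b ^ 4), F1 i) ≤ (b : ℝ) ^ 4 * D := by
    refine (measureReal_biUnion_finset_le _ _).trans ?_
    refine (sum_le_sum fun i hi' => hP1 i (mem_range.1 hi')).trans ?_
    rw [sum_const, card_range, nsmul_eq_mul]
    push_cast
    exact le_rfl
  have hS2 : μ.real (⋃ i ∈ range b, F2 i) ≤ (b : ℝ) * D := by
    refine (measureReal_biUnion_finset_le _ _).trans ?_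
    refine (sum_le_sum fun i hi' => hP2 i (mem_range.1 hi')).trans ?_
    rw [sum_const, card_range, nsmul_eq_mul]
  calc μ.real (Bad E R n)
      ≤ μ.real (((⋃ i ∈ range (b ^ 4), F1 i) ∪ ⋃ i ∈ range b, F2 i) ∪ F3) :=
        measureReal_mono hsub
    _ ≤ μ.real ((⋃ i ∈ range (b ^ 4), F1 i) ∪ ⋃ i ∈ range b, F2 i) + μ.real F3 :=
        measureReal_union_le _ _
    _ ≤ (μ.real (⋃ i ∈ range (b ^ 4), F1 i) + μ.real (⋃ i ∈ range b, F2 i)) + μ.real F3 := by
        gcongr
        exact measureReal_union_le _ _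
    _ ≤ ((b : ℝ) ^ 4 + b + 1) * D := by
        linarith

end Pool.Agent.SG33
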