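import Pool.Agent.SG33.DetB
import Pool.Agent.SG33.Fail

/-!
# SG33/FailB: the probability of failure for one `n`, model with small primes (MP_ff230c_nt)
-/

set_option autoImplicit false

namespace Pool.Agent.SG33

open MeasureTheory ProbabilityTheory Filter Topology Finset Pool.Agent.CR53 Pool.Agent.GM53

variable {Ω : Type*} [mΩ : MeasurableSpace Ω] {μ : Measure Ω} {E : ℕ → Set Ω}

/-- Data for the candidates. -/
structure CandB (R : ℕ → Finset ℕ) (f : ℕ → ℕ) (P b : ℕ) : Prop where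
  lo : ∀ t, 2 * b ^ 4 ≤ t → t < 3 * b ^ 4 → 8 * (P * b ^ 4) ≤ f t ∧ f t ≤ 12 * (P * b ^ 4)
  mono : StrictMono f
  card : ∀ q, (R q).card ≤ 2
  mem : ∀ t, 2 * b ^ 4 ≤ t → t < 3 * b ^ 4 → ∀ x ∈ R (f t),
    3 ≤ x ∧ x ≤ 24 * (P * b ^ 4) ∧ x.Coprime P
  disj : ∀ t t', 2 * b ^ 4 ≤ t → t < 3 * b ^ 4 → 2 * b ^ 4 ≤ t' → t' < 3 * b ^ 4 → t ≠ t' →
    Disjoint (R (f t)) (R (f t'))

/-- choice of candidates in the blocks -/
lemma choice (R : ℕ → Finset ℕ) (f : ℕ → ℕ) (hf : StrictMono f) (b : ℕ) (hb : 1 ≤ b) :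
    ∃ c : Finset ℕ → ℕ → ℕ, (∀ s, StrictMono (c s)) ∧
      ∀ s i, ∃ j < b ^ 2, c s i = f (2 * b ^ 4 + i * b ^ 2 + j) ∧
        ((∃ j' < b ^ 2, R (f (2 * b ^ 4 + i * b ^ 2 + j')) ⊆ s) → R (c s i) ⊆ s) := by
  classical
  have hb2 : 0 < b ^ 2 := by positivity
  have hex : ∀ (s : Finset ℕ) (i : ℕ), ∃ j, j < b ^ 2 ∧
      ((∃ j' < b ^ 2, R (f (2 * b ^ 4 + i * b ^ 2 + j')) ⊆ s) →
        R (f (2 * b ^ 4 + i * b ^ 2 + j)) ⊆ s) := by
    intro s i
    by_cases h : ∃ j' < b ^ 2, R (f (2 * b ^ 4 + i * b ^ 2 + j')) ⊆ s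
    · obtain ⟨j, h1, h2⟩ := h
      exact ⟨j, h1, fun _ => h2⟩
    · exact ⟨0, hb2, fun h' => absurd h' h⟩
  choose j hj using hex
  refine ⟨fun s i => f (2 * b ^ 4 + i * b ^ 2 + j s i), ?_, ?_⟩
  · intro s
    apply strictMono_nat_of_lt_succ
    intro i
    apply hf
    have h1 := (hj s i).1
    have h2 : (i + 1) * b ^ 2 = i * b ^ 2 + b ^ 2 := by ring
    omega
  · intro s i
    exact ⟨j s i, (hj s i).1, rfl, (hj s i).2⟩

theorem failB_le [IsProbabilityMeasure μ] (hE : ∀ m, MeasurableSet (E m)) (hi : iIndepSet E μ)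
    {R : ℕ → Finset ℕ} {f : ℕ → ℕ} {P b h n : ℕ} {ρ : ℝ}
    (hlow : ∀ m : ℕ, 3 ≤ m → m ≤ n → m.Coprime P → 1 / Real.log n ≤ μ.real (E m))
    (hup : ∀ m : ℕ, 4 * (P * b ^ 4) < m → m ≤ n → μ.real (E m) ≤ ρ)
    (hρ0 : 0 ≤ ρ) (hρ1 : ρ ≤ 1 / 256) (hρ2 : P * ρ ≤ 1 / 2)
    (hc : CandB R f P b) (hb : 12 ≤ b) (hP : 1 ≤ P) (hPb : P ≤ b) (hlog : 2 ≤ Real.log n)
    (hh : b ^ 9 ≤ h) (hn : 2 * h < n) :
    μ.real (Bad E R n) ≤ ((b : ℝ) ^ 6 + b ^ 2 + b + 2) * (1 - (1 / Real.log n) ^ 2) ^ b := by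
  classical
  obtain ⟨q, hq⟩ : ∃ q : ℝ, q = 1 / Real.log n := ⟨_, rfl⟩
  rw [← hq] at hlow ⊢
  have hq0 : 0 ≤ q := by rw [hq]; positivity
  have hq12 : q ≤ 1 / 2 := by
    rw [hq]
    exact one_div_le_one_div_of_le (by norm_num) hlog
  have hq1 : q ≤ 1 := by linarith
  have hqq : q ^ 2 ≤ q := by nlinarith
  have hqq2 : q ^ 2 ≤ 1 / 2 := by linarith
  have hqq0 : 0 ≤ q ^ 2 := by positivity
  obtain ⟨D, hD⟩ : ∃ D : ℝ, D = (1 - q ^ 2) ^ b := ⟨_, rfl⟩
  rw [← hD]
  have hbase0 : 0 ≤ 1 - q ^ 2 := by linarith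
  have hbase1 : 1 - q ^ 2 ≤ 1 := by linarith
  have hhalf : (1 / 2 : ℝ) ^ b ≤ D := by
    rw [hD]
    exact pow_le_pow_left₀ (by norm_num) (by linarith) b
  -- sizes
  have hb2 : b ≤ b ^ 2 := Nat.le_self_pow (by norm_num) b
  have hb4 : b ≤ b ^ 4 := Nat.le_self_pow (by norm_num) b
  obtain ⟨N, hN⟩ : ∃ N : ℕ, N = P * b ^ 4 := ⟨_, rfl⟩
  have hNb : b ^ 4 ≤ N := by
    rw [hN]
    exact Nat.le_mul_of_pos_left _ hP
  have hN5 : N ≤ b ^ 5 := by
    rw [hN]
    calc P * b ^ 4 ≤ b * b ^ 4 := Nat.mul_le_mul_right _ hPb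
      _ = b ^ 5 := by ring
  have hN6 : 12 * N ≤ b ^ 6 := by
    calc 12 * N ≤ b * b ^ 5 := Nat.mul_le_mul hb hN5
      _ = b ^ 6 := by ring
  have h69 : b ^ 6 * 1728 ≤ b ^ 9 := by
    calc b ^ 6 * 1728 = b ^ 6 * 12 ^ 3 := by norm_num
      _ ≤ b ^ 6 * b ^ 3 := Nat.mul_le_mul_left _ (Nat.pow_le_pow_left hb 3)
      _ = b ^ 9 := by ring
  have h89 : 12 * b ^ 8 ≤ b ^ 9 := by
    calc 12 * b ^ 8 ≤ b * b ^ 8 := Nat.mul_le_mul_right _ hb
      _ = b ^ 9 := by ring
  have hb8 : b ≤ b ^ 8 := Nat.le_self_pow (by norm_num) b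
  have hP7 : P * b ^ 7 ≤ b ^ 8 := by
    calc P * b ^ 7 ≤ b * b ^ 7 := Nat.mul_le_mul_right _ hPb
      _ = b ^ 8 := by ring
  obtain ⟨L, hL⟩ : ∃ L : ℕ, L = 24 * N := ⟨_, rfl⟩
  have hLh : L ≤ h := by omega
  obtain ⟨c, hcm, hcj⟩ := choice R f hc.mono b (by omega)
  -- the kinds of failure
  obtain ⟨e1, he1⟩ : ∃ e1 : ℕ → ℕ → ℕ, e1 = fun i j => 1 + P * (2 + i * b + j) := ⟨_, rfl⟩
  obtain ⟨F1, hF1⟩ : ∃ F1 : ℕ → Set Ω, F1 = fun i => {ω | ∀ j < b,
      ∃ m ∈ (fun j => ({e1 i j} : Finset ℕ)) j, ω ∉ E m} := ⟨_, rfl⟩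
  obtain ⟨F2, hF2⟩ : ∃ F2 : ℕ → Set Ω, F2 = fun i => {ω | ∀ j < b ^ 2,
      ∃ m ∈ (fun j => R (f (2 * b ^ 4 + i * b ^ 2 + j))) j, ω ∉ E m} := ⟨_, rfl⟩
  obtain ⟨T, hTdef⟩ : ∃ T : Finset ℕ → Finset ℕ,
      T = fun s => (GP R P n h s).image (fun m => n - m) := ⟨_, rfl⟩
  obtain ⟨F3, hF3⟩ : ∃ F3 : Set Ω, F3 = {ω | b ≤ (T (XX E h ω)).card ∧
      ∀ m ∈ T (XX E h ω), ω ∉ E m} := ⟨_, rfl⟩
  obtain ⟨F4, hF4⟩ : ∃ F4 : Set Ω, F4 = {ω | ∃ S ⊆ Ioc (4 * N) L, S.card = 4 * N - 1 ∧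
      ∀ m ∈ S, ω ∈ E m} := ⟨_, rfl⟩
  obtain ⟨F5, hF5⟩ : ∃ F5 : ℕ → Set Ω, F5 = fun u => {ω | ∀ l < b,
      short L P (c (XX E L ω) (u * b + l)) (XX E h ω)} := ⟨_, rfl⟩
  have hindex1 : ∀ i < b ^ 6, ∀ j < b, 3 ≤ e1 i j ∧ e1 i j + P ≤ h := by
    intro i hi' j hj
    rw [he1]
    beta_reduce
    have h1 : (i + 1) * b ≤ b ^ 6 * b := Nat.mul_le_mul_right _ hi'
    have h2 : b ^ 6 * b = b ^ 7 := by ring
    have h3 : (i + 1) * b = i * b + b := by ring
    have h4 : 2 + i * b + j ≤ 2 + b ^ 7 := by omega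
    have h5 : P * (2 + i * b + j) ≤ P * (2 + b ^ 7) := Nat.mul_le_mul_left _ h4
    have h6 : P * (2 + b ^ 7) = 2 * P + P * b ^ 7 := by ring
    have h7 : 1 * 2 ≤ P * (2 + i * b + j) := Nat.mul_le_mul hP (by omega)
    constructor
    · omega
    · omega
  have hcop1 : ∀ i j, (e1 i j).Coprime P := by
    intro i j
    rw [he1]
    beta_reduce
    rw [add_comm, mul_comm]
    exact (Nat.coprime_mul_right_add_left 1 P _).2 (Nat.coprime_one_left P)
  have hinj1 : ∀ i j i' j', e1 i j = e1 i' j' → i * b + j = i' * b + j' := by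
    intro i j i' j' he
    rw [he1] at he
    beta_reduce at he
    have h1 : P * (2 + i * b + j) = P * (2 + i' * b + j') := by omega
    have h2 := Nat.eq_of_mul_eq_mul_left (by omega) h1
    omega
  have hindex2 : ∀ i < b ^ 2, ∀ j < b ^ 2, 2 * b ^ 4 ≤ 2 * b ^ 4 + i * b ^ 2 + j ∧
      2 * b ^ 4 + i * b ^ 2 + j < 3 * b ^ 4 := by
    intro i hi' j hj
    have h1 : (i + 1) * b ^ 2 ≤ b ^ 2 * b ^ 2 := Nat.mul_le_mul_right _ hi'
    have h2 : b ^ 2 * b ^ 2 = b ^ 4 := by ring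
    have h3 : (i + 1) * b ^ 2 = i * b ^ 2 + b ^ 2 := by ring
    omega
  have hP1 : ∀ i < b ^ 6, μ.real (F1 i) ≤ D := by
    intro i hi'
    rw [hF1]
    have h1 := blk_prob_P hE hi (fun j => ({e1 i j} : Finset ℕ)) b 1 q hq0 hq1
      (by
        intro j _ j' _ hjj
        beta_reduce
        rw [disjoint_singleton]
        intro he
        have := hinj1 _ _ _ _ he
        omega)
      (by intro j _; beta_reduce; rw [card_singleton])
      (by
        intro j hj m hm
        beta_reduce at hm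
        rw [mem_singleton] at hm
        obtain ⟨h2, h3⟩ := hindex1 i hi' j hj
        rw [hm]
        exact hlow _ h2 (by omega) (hcop1 i j))
    rw [pow_one] at h1
    refine h1.trans ?_
    rw [hD]
    exact pow_le_pow_left₀ (by linarith) (by linarith) b
  have hP2 : ∀ i < b ^ 2, μ.real (F2 i) ≤ D := by
    intro i hi'
    rw [hF2]
    have h1 := blk_prob_P hE hi (fun j => R (f (2 * b ^ 4 + i * b ^ 2 + j))) (b ^ 2) 2 q hq0 hq1
      (by
        intro j hj j' hj' hjj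
        beta_reduce
        obtain ⟨h2, h3⟩ := hindex2 i hi' j hj
        obtain ⟨h4, h5⟩ := hindex2 i hi' j' hj'
        exact hc.disj _ _ h2 h3 h4 h5 (by omega))
      (by intro j _; exact hc.card _)
      (by
        intro j hj m hm
        obtain ⟨h2, h3⟩ := hindex2 i hi' j hj
        obtain ⟨h4, h5, h6⟩ := hc.mem _ h2 h3 m hm
        rw [← hN] at h5
        exact hlow m h4 (by omega) h6)
    refine h1.trans ?_
    rw [hD]
    exact pow_le_pow_of_le_one hbase0 hbase1 hb2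
  have hP3 : μ.real F3 ≤ D := by
    rw [hF3]
    refine (cond hE hi h b q hq0 hq1 T ?_).trans ?_
    · intro s m hm
      rw [hTdef] at hm
      beta_reduce at hm
      rw [mem_image] at hm
      obtain ⟨m', hm', rfl⟩ := hm
      unfold GP at hm'
      rw [mem_filter, Finset.mem_range] at hm'
      exact ⟨by omega, hlow _ (by omega) (by omega) hm'.2.2.2⟩
    · rw [hD]
      exact pow_le_pow_left₀ (by linarith) (by linarith) b
  have hP4 : μ.real F4 ≤ D := by
    rw [hF4]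
    refine (up_le hi (Ioc (4 * N) L) (4 * N - 1) ρ hρ0 ?_).trans ?_
    · intro m hm
      obtain ⟨h1, h2⟩ := Finset.mem_Ioc.1 hm
      exact hup m (by rw [← hN]; exact h1) (by omega)
    · refine le_trans ?_ hhalf
      have hcard : (Ioc (4 * N) L).card = 20 * N := by
        rw [Nat.card_Ioc]
        omega
      rw [hcard]
      have h1 : ρ ^ (4 * N - 1) ≤ (1 / 256 : ℝ) ^ (4 * N - 1) := pow_le_pow_left₀ hρ0 hρ1 _
      have h2 : (1 / 256 : ℝ) ^ (4 * N - 1) = (1 / 2) ^ (8 * (4 * N - 1)) := by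
        rw [pow_mul]
        norm_num
      have h3 : (2 : ℝ) ^ (20 * N) * (1 / 2) ^ (8 * (4 * N - 1)) =
          (1 / 2) ^ (8 * (4 * N - 1) - 20 * N) := by
        have h4 : 8 * (4 * N - 1) = 20 * N + (8 * (4 * N - 1) - 20 * N) := by omega
        rw [h4, pow_add, ← mul_assoc, ← mul_pow]
        norm_num
      calc (2 : ℝ) ^ (20 * N) * ρ ^ (4 * N - 1)
          ≤ 2 ^ (20 * N) * (1 / 2) ^ (8 * (4 * N - 1)) := by
            rw [← h2]
            exact mul_le_mul_of_nonneg_left h1 (by positivity)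
        _ = (1 / 2) ^ (8 * (4 * N - 1) - 20 * N) := h3
        _ ≤ (1 / 2) ^ b := pow_le_pow_of_le_one (by norm_num) (by norm_num) (by omega)
  have hP5 : ∀ u < b, μ.real (F5 u) ≤ D := by
    intro u _
    rw [hF5]
    refine (gap_all hE hi L h P (1 / 2) ?_ (by norm_num)
      (fun s l => c s (u * b + l)) ?_ b hLh).trans hhalf
    · intro x hx1 hx2
      calc ∑ y ∈ Ioc x (x + P), μ.real (E y) ≤ ∑ _y ∈ Ioc x (x + P), ρ := by
            apply sum_le_sum
            intro y hy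
            obtain ⟨h1, h2⟩ := Finset.mem_Ioc.1 hy
            exact hup y (by rw [← hN]; omega) (by omega)
        _ = P * ρ := by
            rw [sum_const, Nat.card_Ioc, nsmul_eq_mul, Nat.add_sub_cancel_left]
        _ ≤ 1 / 2 := hρ2
    · intro s l l' hl
      beta_reduce
      exact hcm s (by omega)
  -- the inclusion
  have hsub : Bad E R n ⊆ ((((⋃ i ∈ range (b ^ 6), F1 i) ∪ ⋃ i ∈ range (b ^ 2), F2 i) ∪
      ⋃ u ∈ range b, F5 u) ∪ F4) ∪ F3 := by
    intro ω hω
    by_contra hcon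
    simp only [Set.mem_union, Set.mem_iUnion, Finset.mem_range, not_or, not_exists] at hcon
    obtain ⟨⟨⟨⟨h1, h2⟩, h5⟩, h4⟩, h3⟩ := hcon
    obtain ⟨s, hs⟩ : ∃ s, s = XX E h ω := ⟨_, rfl⟩
    obtain ⟨s0, hs0⟩ : ∃ s0, s0 = XX E L ω := ⟨_, rfl⟩
    -- many elements
    have hK : b ^ 6 ≤ g s (h - P) := by
      have hex : ∀ i, ∃ j, i < b ^ 6 → j < b ∧ ω ∈ E (e1 i j) := by
        intro i
        by_cases hi' : i < b ^ 6
        · have h6 := h1 i hi'
          rw [hF1] at h6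
          simp only [Set.mem_ofPred_eq, not_forall, Finset.mem_singleton, exists_eq_left,
            not_not] at h6
          obtain ⟨j, hj, hj2⟩ := h6
          exact ⟨j, fun _ => ⟨hj, hj2⟩⟩
        · exact ⟨0, fun h => absurd h hi'⟩
      choose j hj using hex
      have h7 : (range (b ^ 6)).card ≤ g s (h - P) := by
        unfold g
        apply card_le_card_of_injOn (fun i => e1 i (j i))
        · intro i hi'
          have hi'' := mem_range.1 (mem_coe.1 hi')
          obtain ⟨k1, k2⟩ := hj i hi''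
          obtain ⟨k3, k4⟩ := hindex1 i hi'' _ k1
          have k5 : e1 i (j i) ∈ s.filter (fun x => x ≤ h - P) := by
            rw [mem_filter, hs, mem_XX]
            exact ⟨⟨by omega, k2⟩, by omega⟩
          exact k5
        · intro i hi' i' hi'' hii
          have k1 := (hj i (mem_range.1 (mem_coe.1 hi'))).1
          have k2 := (hj i' (mem_range.1 (mem_coe.1 hi''))).1
          have hii' := hinj1 _ _ _ _ hii
          by_contra hne
          rcases Nat.lt_or_gt_of_ne hne with hl | hl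
          · have h6 : (i + 1) * b ≤ i' * b := Nat.mul_le_mul_right _ hl
            have h7 : (i + 1) * b = i * b + b := by ring
            omega
          · have h6 : (i' + 1) * b ≤ i * b := Nat.mul_le_mul_right _ hl
            have h7 : (i' + 1) * b = i' * b + b := by ring
            omega
      simpa using h7
    -- few elements up to L
    have hfew : s0.card < 8 * N := by
      by_contra hcon
      apply h4
      rw [hF4]
      have h6 : s0.card ≤ (4 * N + 1) + (s0.filter (fun m => 4 * N < m)).card := by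
        have h7 : s0 ⊆ range (4 * N + 1) ∪ s0.filter (fun m => 4 * N < m) := by
          intro x hx
          rw [mem_union, Finset.mem_range, mem_filter]
          rcases Nat.lt_or_ge (4 * N) x with h8 | h8
          · right
            exact ⟨hx, h8⟩
          · left
            omega
        refine (card_le_card h7).trans ((card_union_le _ _).trans ?_)
        rw [card_range]
      obtain ⟨S, hS1, hS2⟩ := exists_subset_card_eq
        (show 4 * N - 1 ≤ (s0.filter (fun m => 4 * N < m)).card by omega)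
      refine ⟨S, fun m hm => ?_, hS2, fun m hm => ?_⟩
      · obtain ⟨k1, k2⟩ := mem_filter.1 (hS1 hm)
        rw [hs0] at k1
        exact Finset.mem_Ioc.2 ⟨k2, (mem_XX.1 k1).1⟩
      · obtain ⟨k1, k2⟩ := mem_filter.1 (hS1 hm)
        rw [hs0] at k1
        exact (mem_XX.1 k1).2
    -- good candidates
    have hgood : ∀ i < b ^ 2, R (c s0 i) ⊆ s0 ∧ 8 * N ≤ c s0 i ∧ c s0 i ≤ 12 * N := by
      intro i hi'
      obtain ⟨j, hj, k1, k2⟩ := hcj s0 i
      obtain ⟨k3, k4⟩ := hindex2 i hi' j hj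
      have k5 := hc.lo _ k3 k4
      rw [← hN, ← k1] at k5
      refine ⟨k2 ?_, k5⟩
      have h6 := h2 i hi'
      rw [hF2] at h6
      simp only [Set.mem_ofPred_eq, not_forall, not_exists, not_and, not_not] at h6
      obtain ⟨j', hj', hj2⟩ := h6
      refine ⟨j', hj', fun x hx => ?_⟩
      obtain ⟨k6, k7⟩ := hindex2 i hi' j' hj'
      obtain ⟨-, k8, -⟩ := hc.mem _ k6 k7 x hx
      rw [hs0, mem_XX]
      exact ⟨by omega, hj2 x hx⟩
    -- long gaps
    have hlong : ∀ u, ∃ l x, u < b → l < b ∧ 1 ≤ x ∧ x + P ≤ h ∧ g s x = c s0 (u * b + l) ∧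
        R (c s0 (u * b + l)) ⊆ s ∧ ∀ y ∈ s, x < y → x + P < y := by
      intro u
      by_cases hu : u < b
      swap
      · exact ⟨0, 0, fun h => absurd h hu⟩
      have h6 := h5 u hu
      rw [hF5] at h6
      simp only [Set.mem_ofPred_eq, not_forall] at h6
      obtain ⟨l, hl, hnot⟩ := h6
      rw [← hs0, ← hs] at hnot
      have hidx : u * b + l < b ^ 2 := by
        have k1 : (u + 1) * b ≤ b * b := Nat.mul_le_mul_right _ hu
        have k2 : (u + 1) * b = u * b + b := by ring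
        have k3 : b * b = b ^ 2 := by ring
        omega
      obtain ⟨k4, k5, k6⟩ := hgood _ hidx
      obtain ⟨x, hx, hxh, hxg⟩ := g_elem s (h - P) (c s0 (u * b + l)) (by omega) (by omega)
      have hLx : L < x := by
        by_contra hcon
        have k7 := g_mono s (show x ≤ L by omega)
        rw [hs] at k7
        rw [g_XX hLh, ← hs0, ← hs, hxg] at k7
        omega
      refine ⟨l, x, fun _ => ⟨hl, by omega, by omega, hxg, ?_, ?_⟩⟩
      · refine k4.trans ?_
        rw [hs0, hs]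
        exact XX_sub hLh ω
      · intro y hy hxy
        by_contra hcon
        exact hnot ⟨x, hx, hLx, hxg, y, hy, hxy, by omega⟩
    choose l x hlx using hlong
    have hG := GP_card R P n h b s (by omega) (by omega) (fun u => c s0 (u * b + l u)) x
      (by
        intro u hu
        obtain ⟨k0, k1, k2, k3, k4, k5⟩ := hlx u hu
        exact ⟨k1, k2, k3, k4, k5⟩)
      (by
        intro u hu u' hu' he
        have k0 := (hcm s0).injective he
        have k1 := (hlx u hu).1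
        have k2 := (hlx u' hu').1
        by_contra hne
        rcases Nat.lt_or_gt_of_ne hne with hl | hl
        · have h6 : (u + 1) * b ≤ u' * b := Nat.mul_le_mul_right _ hl
          have h7 : (u + 1) * b = u * b + b := by ring
          omega
        · have h6 : (u' + 1) * b ≤ u * b := Nat.mul_le_mul_right _ hl
          have h7 : (u' + 1) * b = u' * b + b := by ring
          omega)
    apply h3
    rw [hF3]
    refine ⟨?_, ?_⟩
    · rw [← hs, hTdef]
      beta_reduce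
      rw [card_image_of_injOn]
      · exact hG
      · intro m hm m' hm' hmm
        have hm1 := (mem_filter.1 (mem_coe.1 hm)).1
        have hm2 := (mem_filter.1 (mem_coe.1 hm')).1
        rw [Finset.mem_range] at hm1 hm2
        have hmm' : n - m = n - m' := hmm
        omega
    · intro y hy hyE
      rw [← hs, hTdef] at hy
      beta_reduce at hy
      rw [mem_image] at hy
      obtain ⟨m, hm, rfl⟩ := hy
      unfold GP at hm
      rw [mem_filter, Finset.mem_range] at hm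
      obtain ⟨hm1, hm0, hm2, -⟩ := hm
      apply hω
      refine ⟨n - m, hyE, by omega, ?_⟩
      · have e : n - (n - m) = m := by omega
        rw [e, pc_eq h m (by omega) ω, ← hs]
        intro y hy
        have hy' := hm2 hy
        rw [hs] at hy'
        exact (mem_XX.1 hy').2
  have hD0 : 0 ≤ D := by rw [hD]; positivity
  have hS1 : μ.real (⋃ i ∈ range (b ^ 6), F1 i) ≤ (b : ℝ) ^ 6 * D := by
    refine (measureReal_biUnion_finset_le _ _).trans ?_
    refine (sum_le_sum fun i hi' => hP1 i (mem_range.1 hi')).trans ?_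
    rw [sum_const, card_range, nsmul_eq_mul]
    push_cast
    exact le_rfl
  have hS2 : μ.real (⋃ i ∈ range (b ^ 2), F2 i) ≤ (b : ℝ) ^ 2 * D := by
    refine (measureReal_biUnion_finset_le _ _).trans ?_
    refine (sum_le_sum fun i hi' => hP2 i (mem_range.1 hi')).trans ?_
    rw [sum_const, card_range, nsmul_eq_mul]
    push_cast
    exact le_rfl
  have hS5 : μ.real (⋃ u ∈ range b, F5 u) ≤ (b : ℝ) * D := by
    refine (measureReal_biUnion_finset_le _ _).trans ?_
    refine (sum_le_sum fun i hi' => hP5 i (mem_range.1 hi')).trans ?_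
    rw [sum_const, card_range, nsmul_eq_mul]
  calc μ.real (Bad E R n)
      ≤ μ.real (((((⋃ i ∈ range (b ^ 6), F1 i) ∪ ⋃ i ∈ range (b ^ 2), F2 i) ∪
      ⋃ u ∈ range b, F5 u) ∪ F4) ∪ F3) := measureReal_mono hsub
    _ ≤ (((μ.real (⋃ i ∈ range (b ^ 6), F1 i) + μ.real (⋃ i ∈ range (b ^ 2), F2 i)) +
      μ.real (⋃ u ∈ range b, F5 u)) + μ.real F4) + μ.real F3 := by
        refine (measureReal_union_le _ _).trans (add_le_add_left ?_ _)
        refine (measureReal_union_le _ _).trans (add_le_add_left ?_ _)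
        refine (measureReal_union_le _ _).trans (add_le_add_left ?_ _)
        exact measureReal_union_le _ _
    _ ≤ ((b : ℝ) ^ 6 + b ^ 2 + b + 2) * D := by
        linarith

end Pool.Agent.SG33
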