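import Pool.Agent.SG33.Cond
import Pool.Agent.SG33.Det

/-!
# SG33/Gap: long gaps after elements of prescribed rank (MP_ff230c_nt)
-/

set_option autoImplicit false

namespace Pool.Agent.SG33

open MeasureTheory ProbabilityTheory Filter Topology Finset Pool.Agent.CR53 Pool.Agent.GM53

variable {Ω : Type*} [mΩ : MeasurableSpace Ω] {μ : Measure Ω} {E : ℕ → Set Ω}

omit mΩ in
lemma mem_XX {h m : ℕ} {ω : Ω} : m ∈ XX E h ω ↔ m ≤ h ∧ ω ∈ E m := by
  classical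
  unfold XX
  rw [mem_filter, Finset.mem_range]
  constructor
  · rintro ⟨h1, h2⟩
    exact ⟨by omega, h2⟩
  · rintro ⟨h1, h2⟩
    exact ⟨by omega, h2⟩

omit mΩ in
lemma g_XX {h x : ℕ} (hx : x ≤ h) (ω : Ω) : g (XX E h ω) x = (XX E x ω).card := by
  unfold g
  congr 1
  ext m
  rw [mem_filter, mem_XX, mem_XX]
  constructor
  · rintro ⟨⟨h1, h2⟩, h3⟩
    exact ⟨h3, h2⟩
  · rintro ⟨h1, h2⟩
    exact ⟨⟨by omega, h2⟩, h1⟩

omit mΩ in
lemma XX_of_eq {x y : ℕ} (hxy : x ≤ y) {ω ω' : Ω} (h : XX E y ω = XX E y ω') :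
    XX E x ω = XX E x ω' := by
  ext m
  rw [mem_XX, mem_XX]
  have h1 : m ∈ XX E y ω ↔ m ∈ XX E y ω' := by rw [h]
  rw [mem_XX, mem_XX] at h1
  constructor
  · rintro ⟨h2, h3⟩
    exact ⟨h2, (h1.1 ⟨by omega, h3⟩).2⟩
  · rintro ⟨h2, h3⟩
    exact ⟨h2, (h1.2 ⟨by omega, h3⟩).2⟩

omit mΩ in
lemma XX_sub {x y : ℕ} (hxy : x ≤ y) (ω : Ω) : XX E x ω ⊆ XX E y ω := by
  intro m hm
  rw [mem_XX] at hm ⊢
  exact ⟨by omega, hm.2⟩

omit mΩ in
/-- events that depend only on the set up to `x` -/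
lemma meas_inv (x : ℕ) (U : Set Ω) (hU : ∀ ω ω', XX E x ω = XX E x ω' → ω ∈ U → ω' ∈ U) :
    MeasurableSet[sig E {m | m ≤ x}] U := by
  classical
  have e : U = ⋃ s ∈ (range (x + 1)).powerset.filter (fun s => ∃ ω ∈ U, XX E x ω = s),
      {ω | XX E x ω = s} := by
    ext ω
    simp only [Set.mem_iUnion]
    constructor
    · intro hω
      refine ⟨XX E x ω, mem_filter.2 ⟨mem_powerset.2 ?_, ω, hω, rfl⟩, rfl⟩
      unfold XX
      exact filter_subset _ _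
    · rintro ⟨s, hs, hs2⟩
      obtain ⟨ω', h1, h2⟩ := (mem_filter.1 hs).2
      have h3 : XX E x ω = s := hs2
      exact hU ω' ω (h2.trans h3.symm) h1
  rw [e]
  exact @Finset.measurableSet_biUnion _ _ (sig E {m | m ≤ x}) _ _ fun s _ => meas_XX x s

lemma indep_up [IsProbabilityMeasure μ] (hE : ∀ m, MeasurableSet (E m)) (hi : iIndepSet E μ)
    (x W : ℕ) (δ : ℝ) (hδ : ∑ y ∈ Ioc x (x + W), μ.real (E y) ≤ δ) (U : Set Ω)
    (hU : ∀ ω ω', XX E x ω = XX E x ω' → ω ∈ U → ω' ∈ U) :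
    μ.real (U ∩ ⋃ y ∈ Ioc x (x + W), E y) ≤ μ.real U * δ := by
  classical
  have hind := sig_indep hE hi (S := {m | m ≤ x}) (T := ((Ioc x (x + W) : Finset ℕ) : Set ℕ)) (by
    rw [Set.disjoint_left]
    intro m hm hm2
    have h1 := (Finset.mem_Ioc.1 (mem_coe.1 hm2)).1
    have hm' : m ≤ x := hm
    omega)
  have hmeas : MeasurableSet[sig E ((Ioc x (x + W) : Finset ℕ) : Set ℕ)]
      (⋃ y ∈ Ioc x (x + W), E y) :=
    @Finset.measurableSet_biUnion _ _ (sig E ((Ioc x (x + W) : Finset ℕ) : Set ℕ)) _ _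
      fun m hm => meas_E hm
  have h4 := (Indep_iff _ _ _).1 hind U (⋃ y ∈ Ioc x (x + W), E y) (meas_inv x U hU) hmeas
  rw [Measure.real, h4, ENNReal.toReal_mul]
  exact mul_le_mul_of_nonneg_left ((measureReal_biUnion_finset_le _ _).trans hδ) measureReal_nonneg

/-- the element of rank `c` is beyond `L` and another element follows at distance at most `W` -/
def short (L W c : ℕ) (s : Finset ℕ) : Prop :=
  ∃ x ∈ s, L < x ∧ g s x = c ∧ ∃ y ∈ s, x < y ∧ y ≤ x + W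

lemma g_mono (s : Finset ℕ) {x y : ℕ} (h : x ≤ y) : g s x ≤ g s y := by
  unfold g
  apply card_le_card
  intro m hm
  rw [mem_filter] at hm ⊢
  exact ⟨hm.1, by omega⟩

lemma g_lt (s : Finset ℕ) {x y : ℕ} (h : x < y) (hy : y ∈ s) : g s x < g s y := by
  unfold g
  apply card_lt_card
  rw [Finset.ssubset_iff_of_subset]
  · exact ⟨y, mem_filter.2 ⟨hy, le_rfl⟩, fun h1 => by
      have := (mem_filter.1 h1).2
      omega⟩
  · intro m hm
    rw [mem_filter] at hm ⊢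
    exact ⟨hm.1, by omega⟩

omit mΩ in
lemma g_of_le {x y h : ℕ} (hx : x ≤ y) (hy : y ≤ h) (ω : Ω) :
    g (XX E y ω) x = g (XX E h ω) x := by
  rw [g_XX hx, g_XX (hx.trans hy)]

omit mΩ in
lemma short_up {L W c x h : ℕ} (hx : x ≤ h) {ω : Ω} (hs : short L W c (XX E x ω)) :
    short L W c (XX E h ω) := by
  obtain ⟨a, ha, h1, h2, y, hy, h3, h4⟩ := hs
  have hax := (mem_XX.1 ha).1
  refine ⟨a, XX_sub hx ω ha, h1, ?_, y, XX_sub hx ω hy, h3, h4⟩
  rw [← g_of_le hax hx]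
  exact h2

omit mΩ in
lemma short_down {L W c x h : ℕ} (hx : x ≤ h) {ω : Ω} (hxE : ω ∈ E x)
    (hc : c < g (XX E h ω) x) (hs : short L W c (XX E h ω)) :
    short L W c (XX E x ω) := by
  obtain ⟨a, ha, h1, h2, y, hy, h3, h4⟩ := hs
  have hax : a < x := by
    by_contra hcon
    have := g_mono (XX E h ω) (show x ≤ a by omega)
    omega
  refine ⟨a, mem_XX.2 ⟨hax.le, (mem_XX.1 ha).2⟩, h1, ?_, ?_⟩
  · rw [g_of_le hax.le hx]
    exact h2
  · rcases Nat.lt_or_ge x y with h5 | h5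
    · exact ⟨x, mem_XX.2 ⟨le_rfl, hxE⟩, hax, by omega⟩
    · exact ⟨y, mem_XX.2 ⟨h5, (mem_XX.1 hy).2⟩, h3, h4⟩

theorem gap_step [IsProbabilityMeasure μ] (hE : ∀ m, MeasurableSet (E m)) (hi : iIndepSet E μ)
    (L h W : ℕ) (δ : ℝ)
    (hδ : ∀ x, L < x → x ≤ h → ∑ y ∈ Ioc x (x + W), μ.real (E y) ≤ δ) (h0 : 0 ≤ δ)
    (s0 : Finset ℕ) (c : ℕ → ℕ) (hc : StrictMono c) (k : ℕ) (hL : L ≤ h) :
    μ.real {ω | XX E L ω = s0 ∧ ∀ l < k + 1, short L W (c l) (XX E h ω)} ≤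
      μ.real {ω | XX E L ω = s0 ∧ ∀ l < k, short L W (c l) (XX E h ω)} * δ := by
  classical
  obtain ⟨U, hU⟩ : ∃ U : ℕ → Set Ω, U = fun x => {ω | XX E L ω = s0 ∧
      (∀ l < k, short L W (c l) (XX E x ω)) ∧ ω ∈ E x ∧ (XX E x ω).card = c k} := ⟨_, rfl⟩
  have hUinv : ∀ x, L < x → ∀ ω ω', XX E x ω = XX E x ω' → ω ∈ U x → ω' ∈ U x := by
    intro x hx ω ω' he hω
    rw [hU] at hω ⊢
    obtain ⟨h1, h2, h3, h4⟩ := hω
    refine ⟨?_, ?_, ?_, ?_⟩
    · rw [← XX_of_eq hx.le he]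
      exact h1
    · intro l hl
      rw [← he]
      exact h2 l hl
    · have h5 : x ∈ XX E x ω := mem_XX.2 ⟨le_rfl, h3⟩
      rw [he] at h5
      exact (mem_XX.1 h5).2
    · rw [← he]
      exact h4
  have hsub : {ω | XX E L ω = s0 ∧ ∀ l < k + 1, short L W (c l) (XX E h ω)} ⊆
      ⋃ x ∈ Ioc L h, (U x ∩ ⋃ y ∈ Ioc x (x + W), E y) := by
    rintro ω ⟨h1, h2⟩
    obtain ⟨x, hx, h3, h4, y, hy, h5, h6⟩ := h2 k (by omega)
    have hxh := (mem_XX.1 hx).1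
    have hxE := (mem_XX.1 hx).2
    simp only [Set.mem_iUnion]
    refine ⟨x, Finset.mem_Ioc.2 ⟨h3, hxh⟩, ?_, ?_⟩
    · rw [hU]
      refine ⟨h1, fun l hl => ?_, hxE, ?_⟩
      · apply short_down hxh hxE _ (h2 l (by omega))
        rw [h4]
        exact hc hl
      · rw [← g_XX hxh]
        exact h4
    · simp only [Set.mem_iUnion]
      exact ⟨y, Finset.mem_Ioc.2 ⟨h5, h6⟩, (mem_XX.1 hy).2⟩
  have hUD : ∀ x ∈ Ioc L h, U x ⊆
      {ω | XX E L ω = s0 ∧ ∀ l < k, short L W (c l) (XX E h ω)} := by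
    intro x hx ω hω
    rw [hU] at hω
    obtain ⟨h1, h2, h3, h4⟩ := hω
    exact ⟨h1, fun l hl => short_up (Finset.mem_Ioc.1 hx).2 (h2 l hl)⟩
  have hdisj : (↑(Ioc L h) : Set ℕ).PairwiseDisjoint U := by
    have key : ∀ x ∈ Ioc L h, ∀ y ∈ Ioc L h, x < y → ∀ ω, ω ∈ U x → ω ∈ U y → False := by
      intro x hx y hy hxy ω h1 h2
      rw [hU] at h1 h2
      obtain ⟨-, -, -, h3⟩ := h1
      obtain ⟨-, -, h4, h5⟩ := h2
      have h6 := g_lt (XX E y ω) hxy (mem_XX.2 ⟨le_rfl, h4⟩)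
      rw [g_XX hxy.le, g_XX le_rfl] at h6
      omega
    intro x hx y hy hxy
    rw [Function.onFun, Set.disjoint_left]
    intro ω h1 h2
    rcases Nat.lt_or_gt_of_ne hxy with h3 | h3
    · exact key x (mem_coe.1 hx) y (mem_coe.1 hy) h3 ω h1 h2
    · exact key y (mem_coe.1 hy) x (mem_coe.1 hx) h3 ω h2 h1
  refine (measureReal_mono hsub (measure_ne_top _ _)).trans ?_
  refine (measureReal_biUnion_finset_le _ _).trans ?_
  have hterm : ∀ x ∈ Ioc L h, μ.real (U x ∩ ⋃ y ∈ Ioc x (x + W), E y) ≤ μ.real (U x) * δ := by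
    intro x hx
    obtain ⟨h1, h2⟩ := Finset.mem_Ioc.1 hx
    exact indep_up hE hi x W δ (hδ x h1 h2) (U x) (hUinv x h1)
  refine (sum_le_sum hterm).trans ?_
  rw [← sum_mul]
  apply mul_le_mul_of_nonneg_right _ h0
  rw [← measureReal_biUnion_finset hdisj]
  · apply measureReal_mono _ (measure_ne_top _ _)
    exact Set.iUnion₂_subset hUD
  · intro x hx
    exact (sig_le hE _) _ (meas_inv x (U x) (hUinv x (Finset.mem_Ioc.1 hx).1))

theorem gap_le [IsProbabilityMeasure μ] (hE : ∀ m, MeasurableSet (E m)) (hi : iIndepSet E μ)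
    (L h W : ℕ) (δ : ℝ)
    (hδ : ∀ x, L < x → x ≤ h → ∑ y ∈ Ioc x (x + W), μ.real (E y) ≤ δ) (h0 : 0 ≤ δ)
    (s0 : Finset ℕ) (c : ℕ → ℕ) (hc : StrictMono c) (k : ℕ) (hL : L ≤ h) :
    μ.real {ω | XX E L ω = s0 ∧ ∀ l < k, short L W (c l) (XX E h ω)} ≤
      μ.real {ω | XX E L ω = s0} * δ ^ k := by
  induction k with
  | zero =>
    rw [pow_zero, mul_one]
    exact measureReal_mono (fun ω hω => hω.1) (measure_ne_top _ _)
  | succ k ih =>
    refine (gap_step hE hi L h W δ hδ h0 s0 c hc k hL).trans ?_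
    rw [pow_succ, ← mul_assoc]
    exact mul_le_mul_of_nonneg_right ih h0

/-- the ranks may depend on the set up to `L` -/
theorem gap_all [IsProbabilityMeasure μ] (hE : ∀ m, MeasurableSet (E m)) (hi : iIndepSet E μ)
    (L h W : ℕ) (δ : ℝ)
    (hδ : ∀ x, L < x → x ≤ h → ∑ y ∈ Ioc x (x + W), μ.real (E y) ≤ δ) (h0 : 0 ≤ δ)
    (c : Finset ℕ → ℕ → ℕ) (hc : ∀ s, StrictMono (c s)) (k : ℕ) (hL : L ≤ h) :
    μ.real {ω | ∀ l < k, short L W (c (XX E L ω) l) (XX E h ω)} ≤ δ ^ k := by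
  classical
  have hsub : {ω | ∀ l < k, short L W (c (XX E L ω) l) (XX E h ω)} ⊆
      ⋃ s ∈ (range (L + 1)).powerset,
        {ω | XX E L ω = s ∧ ∀ l < k, short L W (c s l) (XX E h ω)} := by
    intro ω hω
    simp only [Set.mem_iUnion]
    refine ⟨XX E L ω, mem_powerset.2 ?_, rfl, hω⟩
    unfold XX
    exact filter_subset _ _
  refine (measureReal_mono hsub (measure_ne_top _ _)).trans ?_
  refine (measureReal_biUnion_finset_le _ _).trans ?_
  refine (sum_le_sum fun s _ => gap_le hE hi L h W δ hδ h0 s (c s) (hc s) k hL).trans ?_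
  rw [← sum_mul]
  have hsum : ∑ s ∈ (range (L + 1)).powerset, μ.real {ω | XX E L ω = s} ≤ 1 := by
    rw [← measureReal_biUnion_finset]
    · exact measureReal_le_one
    · intro s _ t _ hst
      refine Set.disjoint_left.2 fun ω h2 h3 => hst ?_
      exact (show XX E L ω = s from h2).symm.trans h3
    · intro s _
      exact (sig_le hE _) _ (meas_XX L s)
  calc (∑ s ∈ (range (L + 1)).powerset, μ.real {ω | XX E L ω = s}) * δ ^ k ≤ 1 * δ ^ k :=
        mul_le_mul_of_nonneg_right hsum (pow_nonneg h0 k)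
    _ = δ ^ k := one_mul _

/-- upper tail: at least `k` of the events of `T` -/
theorem up_le [IsProbabilityMeasure μ] (hi : iIndepSet E μ)
    (T : Finset ℕ) (k : ℕ) (ρ : ℝ) (hr : 0 ≤ ρ) (hρ : ∀ m ∈ T, μ.real (E m) ≤ ρ) :
    μ.real {ω | ∃ S ⊆ T, S.card = k ∧ ∀ m ∈ S, ω ∈ E m} ≤ 2 ^ T.card * ρ ^ k := by
  classical
  have hsub : {ω | ∃ S ⊆ T, S.card = k ∧ ∀ m ∈ S, ω ∈ E m} ⊆
      ⋃ S ∈ T.powersetCard k, ⋂ m ∈ S, E m := by
    rintro ω ⟨S, hS, hk, hω⟩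
    simp only [Set.mem_iUnion]
    exact ⟨S, mem_powersetCard.2 ⟨hS, hk⟩, Set.mem_iInter₂.2 hω⟩
  refine (measureReal_mono hsub (measure_ne_top _ _)).trans ?_
  refine (measureReal_biUnion_finset_le _ _).trans ?_
  have hterm : ∀ S ∈ T.powersetCard k, μ.real (⋂ m ∈ S, E m) ≤ ρ ^ k := by
    intro S hS
    obtain ⟨h1, h2⟩ := mem_powersetCard.1 hS
    have h3 : μ (⋂ m ∈ S, E m) = ∏ m ∈ S, μ (E m) := by
      refine (iIndepSet_iff E μ).1 hi S (f := E) fun m _ => ?_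
      exact MeasurableSpace.measurableSet_generateFrom (Set.mem_singleton _)
    rw [Measure.real, h3, ENNReal.toReal_prod]
    calc ∏ m ∈ S, (μ (E m)).toReal ≤ ∏ _m ∈ S, ρ :=
          prod_le_prod (fun _ _ => ENNReal.toReal_nonneg) fun m hm => hρ m (h1 hm)
      _ = ρ ^ k := by rw [prod_const, h2]
  refine (sum_le_sum hterm).trans ?_
  rw [sum_const, nsmul_eq_mul, card_powersetCard]
  apply mul_le_mul_of_nonneg_right _ (pow_nonneg hr k)
  exact_mod_cast Nat.choose_le_two_pow _ _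

end Pool.Agent.SG33
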