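import Pool.Agent.SG33.Num

/-!
# SG33/NumB: numerical estimates, model with small primes (MP_ff230c_nt)
-/

set_option autoImplicit false

namespace Pool.Agent.SG33

open Filter Topology

/-- the integer part of the sixteenth root -/
def rs (n : ℕ) : ℕ := Nat.sqrt (rt n)

lemma rs_le (n : ℕ) : rs n ^ 16 ≤ n := by
  unfold rs
  have h1 := Nat.sqrt_le' (rt n)
  calc Nat.sqrt (rt n) ^ 16 = (Nat.sqrt (rt n) ^ 2) ^ 8 := by ring
    _ ≤ (rt n) ^ 8 := Nat.pow_le_pow_left h1 8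
    _ ≤ n := rt_le n

lemma lt_rs (n : ℕ) : n < (rs n + 1) ^ 16 := by
  unfold rs
  have h1 := Nat.lt_succ_sqrt' (rt n)
  rw [Nat.succ_eq_add_one] at h1
  calc n < (rt n + 1) ^ 8 := lt_rt n
    _ ≤ ((Nat.sqrt (rt n) + 1) ^ 2) ^ 8 := Nat.pow_le_pow_left h1 8
    _ = (Nat.sqrt (rt n) + 1) ^ 16 := by ring

/-- the failure probabilities are small -/
lemma tailB_le : ∀ᶠ n : ℕ in atTop,
    ((rs n : ℝ) ^ 6 + (rs n : ℝ) ^ 2 + rs n + 2) * (1 - (1 / Real.log n) ^ 2) ^ (rs n) ≤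
      1 / (n : ℝ) ^ 2 ∧ 12 ≤ rs n ∧ Real.log n ≤ rs n ∧
      Real.log n / 5 ≤ Real.log (4 * (rs n : ℝ) ^ 4) := by
  have h1 : ∀ᶠ x : ℝ in atTop, Real.log x ^ (3 : ℝ) ≤ x ^ (1 / 16 : ℝ) / 8 := by
    have h := isLittleO_log_rpow_rpow_atTop (s := (1 / 16 : ℝ)) 3 (by norm_num)
    have h2 := h.bound (c := 1 / 8) (by norm_num)
    filter_upwards [h2, eventually_ge_atTop (1 : ℝ)] with x hx hx1
    rw [Real.norm_of_nonneg (Real.rpow_nonneg (Real.log_nonneg hx1) _),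
      Real.norm_of_nonneg (by positivity)] at hx
    linarith
  have h1' := tendsto_natCast_atTop_atTop (R := ℝ) |>.eventually h1
  have h2 : ∀ᶠ x : ℝ in atTop, (20 : ℝ) ≤ x ^ (1 / 16 : ℝ) := by
    have := tendsto_rpow_atTop (y := (1 / 16 : ℝ)) (by norm_num)
    exact this.eventually_ge_atTop 20
  have h2' := tendsto_natCast_atTop_atTop (R := ℝ) |>.eventually h2
  filter_upwards [h1', h2', eventually_ge_atTop 1000] with n hA hB hn
  clear h1 h1' h2 h2'
  have hn0 : (0 : ℝ) < n := by exact_mod_cast (by omega : 0 < n)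
  have hn1 : (1000 : ℝ) ≤ n := by exact_mod_cast hn
  have hlog : 1 ≤ Real.log n := by
    rw [Real.le_log_iff_exp_le hn0]
    have := Real.exp_one_lt_d9
    linarith
  -- the root
  obtain ⟨b, hb⟩ : ∃ b : ℕ, b = rs n := ⟨_, rfl⟩
  have hb1 : b ^ 16 ≤ n := by rw [hb]; exact rs_le n
  have hb2 : n < (b + 1) ^ 16 := by rw [hb]; exact lt_rs n
  rw [← hb]
  have hc : (n : ℝ) ^ (1 / 16 : ℝ) ≤ (b : ℝ) + 1 := by
    have h3 : (n : ℝ) ≤ ((b : ℝ) + 1) ^ 16 := by exact_mod_cast hb2.le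
    have h4 : (n : ℝ) ^ (1 / 16 : ℝ) ≤ (((b : ℝ) + 1) ^ 16) ^ (1 / 16 : ℝ) :=
      Real.rpow_le_rpow hn0.le h3 (by norm_num)
    refine h4.trans (le_of_eq ?_)
    rw [← Real.rpow_natCast, ← Real.rpow_mul (by positivity)]
    norm_num
  have hlogc : Real.log ((n : ℝ) ^ (1 / 16 : ℝ)) = Real.log n / 16 := by
    rw [Real.log_rpow hn0]
    ring
  obtain ⟨c, hcd⟩ : ∃ c : ℝ, c = (n : ℝ) ^ (1 / 16 : ℝ) := ⟨_, rfl⟩
  rw [← hcd] at hc hA hB hlogc
  have hL3 : Real.log n ^ 3 ≤ c / 8 := by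
    have : Real.log n ^ (3 : ℝ) = Real.log n ^ 3 := by
      rw [show (3 : ℝ) = ((3 : ℕ) : ℝ) by norm_num, Real.rpow_natCast]
    rw [← this]; exact hA
  clear hcd hA hb
  have hb12 : 12 ≤ b := by
    have : (12 : ℝ) ≤ (b : ℝ) := by linarith
    exact_mod_cast this
  have hlogL : Real.log n / 5 ≤ Real.log (4 * (b : ℝ) ^ 4) := by
    have hcb : c / 2 ≤ (b : ℝ) := by linarith
    have h5 : Real.log (c / 2) ≤ Real.log b := Real.log_le_log (by linarith) hcb
    rw [Real.log_div (by linarith) (by norm_num), hlogc] at h5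
    have hb0 : (0 : ℝ) < b := by linarith
    rw [Real.log_mul (by norm_num) (by positivity), Real.log_pow,
      show (4 : ℝ) = 2 ^ 2 by norm_num, Real.log_pow]
    push_cast
    have h6 := Real.log_two_lt_d9
    have h7 : 40 ≤ Real.log n := by
      have h8 : Real.log 16 ≤ Real.log c := Real.log_le_log (by norm_num) (by linarith)
      rw [hlogc, show (16 : ℝ) = 2 ^ 4 by norm_num, Real.log_pow] at h8
      push_cast at h8
      have h9 := Real.log_two_gt_d9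
      linarith
    linarith
  obtain ⟨L, hL⟩ : ∃ L : ℝ, L = Real.log n := ⟨_, rfl⟩
  rw [← hL] at hlog hL3 hlogL ⊢
  have hbL : 4 * L ^ 3 ≤ (b : ℝ) := by linarith
  have hLb : L ≤ (b : ℝ) := by
    have : L ≤ L ^ 3 := le_self_pow₀ hlog (by norm_num)
    have h0 : 0 ≤ L ^ 3 := by positivity
    linarith
  refine ⟨?_, hb12, hLb, hlogL⟩
  have hq : 0 ≤ (1 / L) ^ 2 := by positivity
  have hq1 : (1 / L) ^ 2 ≤ 1 := by
    apply pow_le_one₀ (by positivity)
    rw [div_le_one (by linarith)]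
    exact hlog
  have h3 : 1 - (1 / L) ^ 2 ≤ Real.exp (-((1 / L) ^ 2)) := by
    have := Real.add_one_le_exp (-((1 / L) ^ 2))
    linarith
  have hpow : (1 - (1 / L) ^ 2) ^ b ≤ 1 / (n : ℝ) ^ 4 := by
    calc (1 - (1 / L) ^ 2) ^ b
        ≤ (Real.exp (-((1 / L) ^ 2))) ^ b := pow_le_pow_left₀ (by linarith) h3 _
      _ = Real.exp (-((1 / L) ^ 2) * b) := by
          rw [← Real.exp_nat_mul]; ring_nf
      _ ≤ Real.exp (-(4 * L)) := by
          apply Real.exp_le_exp.2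
          have h4 : 4 * L ≤ (1 / L) ^ 2 * b := by
            rw [div_pow, one_pow, div_mul_eq_mul_div, one_mul, le_div_iff₀ (by positivity)]
            have h5 : 4 * L * L ^ 2 = 4 * L ^ 3 := by ring
            linarith
          linarith
      _ = 1 / (n : ℝ) ^ 4 := by
          rw [Real.exp_neg, hL]
          have : Real.exp (4 * Real.log n) = (n : ℝ) ^ 4 := by
            rw [show (4 : ℝ) * Real.log n = ((4 : ℕ) : ℝ) * Real.log n by norm_num,
              Real.exp_nat_mul, Real.exp_log hn0]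
          rw [this, one_div]
  have hbn : (b : ℝ) ^ 6 + (b : ℝ) ^ 2 + b + 2 ≤ (n : ℝ) ^ 2 := by
    have h5 : b ^ 6 + b ^ 2 + b + 2 ≤ n ^ 2 := by
      have h6 : b ^ 6 ≤ b ^ 16 := Nat.pow_le_pow_right (by omega) (by norm_num)
      have h7 : b ≤ b ^ 16 := Nat.le_self_pow (by norm_num) b
      have h7' : b ^ 2 ≤ b ^ 16 := Nat.pow_le_pow_right (by omega) (by norm_num)
      have h8 : 5 * n ≤ n ^ 2 := by
        rw [sq]
        exact Nat.mul_le_mul_right _ (by omega)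
      omega
    exact_mod_cast h5
  calc ((b : ℝ) ^ 6 + (b : ℝ) ^ 2 + b + 2) * (1 - (1 / L) ^ 2) ^ b
      ≤ (n : ℝ) ^ 2 * (1 / (n : ℝ) ^ 4) :=
        mul_le_mul hbn hpow (pow_nonneg (by linarith) _) (by positivity)
    _ = 1 / (n : ℝ) ^ 2 := by
        field_simp

end Pool.Agent.SG33
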