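import Pool.Agent.SG33.FailB
import Pool.Agent.SG33.NumB
import Pool.Agent.SU33.Main

/-!
# SG33/MainB: the Cramer-Granville random model for MP_ff230c_nt
-/

set_option autoImplicit false

namespace Pool.Agent.SG33

open MeasureTheory ProbabilityTheory Filter Topology Finset Pool.Agent.GM53

/-- the two numbers of a Sophie Germain pair -/
def S1 (q : ℕ) : Finset ℕ := {q, 2 * q + 1}

/-- the two numbers of a twin pair around `q` -/
def S2 (q : ℕ) : Finset ℕ := {q - 1, q + 1}

lemma cop_sub (P k : ℕ) (h : 0 < P * k) : (P * k - 1).Coprime P := by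
  obtain ⟨m, hm⟩ : ∃ m, P * k = m + 1 := ⟨P * k - 1, by omega⟩
  have h1 : m.Coprime (P * k) := by
    rw [hm]
    exact (Nat.coprime_self_add_right).2 (Nat.coprime_one_right m)
  have h2 : P * k - 1 = m := by omega
  rw [h2]
  exact Nat.Coprime.coprime_dvd_right (dvd_mul_right P k) h1

lemma cop_add (P k : ℕ) : (P * k + 1).Coprime P := by
  rw [mul_comm]
  exact (Nat.coprime_mul_right_add_left 1 P _).2 (Nat.coprime_one_left P)

lemma candB1 {P b : ℕ} (hP : 1 ≤ P) (hb : 12 ≤ b) :
    CandB S1 (fun t => P * (4 * (t + 1)) - 1) P b := by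
  have hpos : ∀ t, 4 * 1 ≤ P * (4 * (t + 1)) := by
    intro t
    calc 4 * 1 = 1 * (4 * 1) := by ring
      _ ≤ P * (4 * (t + 1)) := Nat.mul_le_mul hP (by omega)
  have hup : ∀ t, t < 3 * b ^ 4 → P * (4 * (t + 1)) ≤ 12 * (P * b ^ 4) := by
    intro t ht
    calc P * (4 * (t + 1)) ≤ P * (4 * (3 * b ^ 4)) := Nat.mul_le_mul_left _ (by omega)
      _ = 12 * (P * b ^ 4) := by ring
  refine ⟨?_, ?_, ?_, ?_, ?_⟩
  · intro t ht ht'
    beta_reduce
    have h1 := hup t ht'
    have h2 : P * (4 * (2 * b ^ 4)) + 4 * P ≤ P * (4 * (t + 1)) := by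
      calc P * (4 * (2 * b ^ 4)) + 4 * P = P * (4 * (2 * b ^ 4 + 1)) := by ring
        _ ≤ P * (4 * (t + 1)) := Nat.mul_le_mul_left _ (by omega)
    have h3 : P * (4 * (2 * b ^ 4)) = 8 * (P * b ^ 4) := by ring
    omega
  · intro t t' h
    beta_reduce
    have h1 : P * (4 * (t + 1)) < P * (4 * (t' + 1)) :=
      Nat.mul_lt_mul_of_pos_left (by omega) (by omega)
    have := hpos t
    omega
  · intro q
    unfold S1
    exact card_le_two
  · intro t ht ht' x hx
    beta_reduce at hx
    unfold S1 at hx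
    have h1 := hup t ht'
    have h2 := hpos t
    simp only [Finset.mem_insert, Finset.mem_singleton] at hx
    rcases hx with rfl | rfl
    · exact ⟨by omega, by omega, cop_sub P _ (by omega)⟩
    · refine ⟨by omega, by omega, ?_⟩
      have h3 : 2 * (P * (4 * (t + 1)) - 1) + 1 = P * (8 * (t + 1)) - 1 := by
        have : P * (8 * (t + 1)) = 2 * (P * (4 * (t + 1))) := by ring
        omega
      rw [h3]
      apply cop_sub
      have : P * (8 * (t + 1)) = 2 * (P * (4 * (t + 1))) := by ring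
      omega
  · have key : ∀ a c : ℕ, P * (4 * (a + 1)) = P * (4 * (c + 1)) → a = c := by
      intro a c h
      have := Nat.eq_of_mul_eq_mul_left (by omega) h
      omega
    have key2 : ∀ a c : ℕ, P * (4 * (a + 1)) = 2 * (P * (4 * (c + 1))) → a + 1 = 2 * (c + 1) := by
      intro a c h
      have h' : P * (4 * (a + 1)) = P * (8 * (c + 1)) := by
        rw [h]; ring
      have := Nat.eq_of_mul_eq_mul_left (by omega) h'
      omega
    intro t t' ht ht1 ht' ht1' hne
    beta_reduce
    rw [Finset.disjoint_left]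
    intro x hx hx'
    unfold S1 at hx hx'
    have h1 := hpos t
    have h2 := hpos t'
    simp only [Finset.mem_insert, Finset.mem_singleton] at hx hx'
    rcases hx with hx | hx <;> rcases hx' with hx' | hx'
    · exact hne (key t t' (by omega))
    · have := key2 t t' (by omega)
      omega
    · have := key2 t' t (by omega)
      omega
    · exact hne (key t t' (by omega))

lemma candB2 {P b : ℕ} (hP : 1 ≤ P) (hb : 12 ≤ b) :
    CandB S2 (fun t => P * (4 * t)) P b := by
  have hb4 : b ≤ b ^ 4 := Nat.le_self_pow (by norm_num) b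
  have hpos : ∀ t, 1 ≤ t → 4 * 1 ≤ P * (4 * t) := by
    intro t ht
    calc 4 * 1 = 1 * (4 * 1) := by ring
      _ ≤ P * (4 * t) := Nat.mul_le_mul hP (by omega)
  have hup : ∀ t, t < 3 * b ^ 4 → P * (4 * t) ≤ 12 * (P * b ^ 4) := by
    intro t ht
    calc P * (4 * t) ≤ P * (4 * (3 * b ^ 4)) := Nat.mul_le_mul_left _ (by omega)
      _ = 12 * (P * b ^ 4) := by ring
  refine ⟨?_, ?_, ?_, ?_, ?_⟩
  · intro t ht ht'
    beta_reduce
    have h1 := hup t ht'
    have h2 : P * (4 * (2 * b ^ 4)) ≤ P * (4 * t) := Nat.mul_le_mul_left _ (by omega)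
    have h3 : P * (4 * (2 * b ^ 4)) = 8 * (P * b ^ 4) := by ring
    omega
  · intro t t' h
    beta_reduce
    exact Nat.mul_lt_mul_of_pos_left (by omega) (by omega)
  · intro q
    unfold S2
    exact card_le_two
  · intro t ht ht' x hx
    beta_reduce at hx
    unfold S2 at hx
    have h1 := hup t ht'
    have h2 := hpos t (by omega)
    simp only [Finset.mem_insert, Finset.mem_singleton] at hx
    rcases hx with rfl | rfl
    · exact ⟨by omega, by omega, cop_sub P _ (by omega)⟩
    · exact ⟨by omega, by omega, cop_add P _⟩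
  · have key : ∀ a c : ℕ, a < c → P * (4 * a) + 4 ≤ P * (4 * c) := by
      intro a c h
      calc P * (4 * a) + 4 = P * (4 * a) + 1 * 4 := by ring
        _ ≤ P * (4 * a) + P * 4 := Nat.add_le_add_left (Nat.mul_le_mul_right _ hP) _
        _ = P * (4 * (a + 1)) := by ring
        _ ≤ P * (4 * c) := Nat.mul_le_mul_left _ (by omega)
    intro t t' ht ht1 ht' ht1' hne
    beta_reduce
    rw [Finset.disjoint_left]
    intro x hx hx'
    unfold S2 at hx hx'
    have h1 := hpos t (by omega)
    have h2 := hpos t' (by omega)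
    simp only [Finset.mem_insert, Finset.mem_singleton] at hx hx'
    rcases Nat.lt_or_gt_of_ne hne with h | h
    · have := key t t' h
      omega
    · have := key t' t h
      omega

/-- the largest sieving limit up to `n` -/
def ZM (z : ℕ → ℕ) (n : ℕ) : ℕ := (range (n + 1)).sup z

lemma le_ZM (z : ℕ → ℕ) {m n : ℕ} (h : m ≤ n) : z m ≤ ZM z n :=
  Finset.le_sup (f := z) (mem_range.2 (by omega))

lemma ZM_attained (z : ℕ → ℕ) (n : ℕ) : ∃ m ≤ n, ZM z n = z m := by
  obtain ⟨m, hm, he⟩ := Finset.exists_mem_eq_sup (range (n + 1)) ⟨0, mem_range.2 (by omega)⟩ z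
  exact ⟨m, by have := mem_range.1 hm; omega, he⟩

lemma mert_le (y : ℕ) : mert y ≤ primorial y := by
  unfold mert primorial
  rw [Nat.cast_prod]
  apply Finset.prod_le_prod
  · intro p hp
    have h2 : 2 ≤ p := (mem_filter.1 hp).2.two_le
    have h3 : (2 : ℝ) ≤ p := by exact_mod_cast h2
    have h4 : 1 / (p : ℝ) ≤ 1 / 2 := one_div_le_one_div_of_le (by norm_num) h3
    exact inv_nonneg.2 (by linarith)
  · intro p hp
    have h2 : 2 ≤ p := (mem_filter.1 hp).2.two_le
    have h3 : (2 : ℝ) ≤ p := by exact_mod_cast h2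
    rw [inv_le_comm₀ _ (by linarith)]
    · have h4 : 1 / (p : ℝ) ≤ 1 / 2 := one_div_le_one_div_of_le (by norm_num) h3
      rw [← one_div]
      linarith
    · have h4 : 1 / (p : ℝ) ≤ 1 / 2 := one_div_le_one_div_of_le (by norm_num) h3
      linarith

lemma mert_mono {y w : ℕ} (h : y ≤ w) : mert y ≤ mert w := by
  classical
  have hsub : (range (y + 1)).filter Nat.Prime ⊆ (range (w + 1)).filter Nat.Prime := by
    intro p hp
    rw [mem_filter, Finset.mem_range] at hp ⊢
    exact ⟨by omega, hp.2⟩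
  have h1 : (1 : ℝ) ≤ ∏ p ∈ (range (w + 1)).filter Nat.Prime \ (range (y + 1)).filter Nat.Prime,
      (1 - 1 / (p : ℝ))⁻¹ := by
    have h2 : ∀ p ∈ (range (w + 1)).filter Nat.Prime \ (range (y + 1)).filter Nat.Prime,
        (1 : ℝ) ≤ (1 - 1 / (p : ℝ))⁻¹ := by
      intro p hp
      have h2 : 2 ≤ p := (mem_filter.1 (Finset.mem_sdiff.1 hp).1).2.two_le
      have h3 : (2 : ℝ) ≤ p := by exact_mod_cast h2
      have h4 : 1 / (p : ℝ) ≤ 1 / 2 := one_div_le_one_div_of_le (by norm_num) h3
      have h5 : 0 < 1 / (p : ℝ) := by positivity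
      exact (one_le_inv₀ (by linarith)).2 (by linarith)
    calc (1 : ℝ) = ∏ _p ∈ (range (w + 1)).filter Nat.Prime \ (range (y + 1)).filter Nat.Prime,
          (1 : ℝ) := by rw [prod_const_one]
      _ ≤ _ := Finset.prod_le_prod (fun _ _ => zero_le_one) h2
  have h3 : mert w = (∏ p ∈ (range (w + 1)).filter Nat.Prime \ (range (y + 1)).filter Nat.Prime,
      (1 - 1 / (p : ℝ))⁻¹) * mert y := by
    unfold mert
    exact (prod_sdiff hsub).symm
  rw [h3]
  exact le_mul_of_one_le_left (mert_pos y).le h1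

/-- the hypothesis for the largest sieving limit -/
lemma ZM_ok (z : ℕ → ℕ)
    (hz : ∀ᶠ m : ℕ in atTop, (primorial (z m) : ℝ) * mert (z m) ≤ Real.log m / 10) :
    ∀ᶠ n : ℕ in atTop, (primorial (ZM z n) : ℝ) * mert (ZM z n) ≤ Real.log n / 10 := by
  obtain ⟨m0, hm0⟩ := eventually_atTop.1 hz
  have h1 : ∀ᶠ n : ℕ in atTop, (∑ m ∈ range m0, (primorial (z m) : ℝ) * mert (z m)) ≤
      Real.log n / 10 := by
    have h2 : Tendsto (fun n : ℕ => Real.log n / 10) atTop atTop :=
      (Real.tendsto_log_atTop.comp tendsto_natCast_atTop_atTop).atTop_div_const (by norm_num)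
    exact h2.eventually_ge_atTop _
  filter_upwards [h1, eventually_ge_atTop 1] with n hn hn1
  obtain ⟨m, hm, he⟩ := ZM_attained z n
  rw [he]
  rcases Nat.lt_or_ge m m0 with h | h
  · refine le_trans ?_ hn
    exact single_le_sum (f := fun m => (primorial (z m) : ℝ) * mert (z m))
      (fun i _ => mul_nonneg (Nat.cast_nonneg _) (mert_pos _).le) (mem_range.2 h)
  · refine (hm0 m h).trans ?_
    rcases Nat.eq_zero_or_pos m with h0 | h0
    · subst h0
      have := Real.log_natCast_nonneg n
      simp only [Nat.cast_zero, Real.log_zero, zero_div]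
      linarith
    · have h4 : Real.log m ≤ Real.log n :=
        Real.log_le_log (by exact_mod_cast h0) (by exact_mod_cast hm)
      linarith

theorem mainB (z : ℕ → ℕ)
    (hz : ∀ᶠ m : ℕ in atTop, (primorial (z m) : ℝ) * mert (z m) ≤ Real.log m / 10) :
    ∀ᵐ ω ∂(Measure.infinitePi (coin z)), ∀ᶠ n : ℕ in atTop,
    (∃ p, ω p = true ∧ p < n ∧ ∀ x ∈ S1 (pc {m | ω m = true} (n - p)), ω x = true) ∧
    (∃ p, ω p = true ∧ p < n ∧ ∀ x ∈ S2 (pc {m | ω m = true} (n - p)), ω x = true) := by
  obtain ⟨hE, hi, hp⟩ := Pool.Agent.SU33.model_facts z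
  have hlog : ∀ᶠ n : ℕ in atTop, (200000 : ℝ) ≤ Real.log n :=
    (Real.tendsto_log_atTop.comp tendsto_natCast_atTop_atTop).eventually_ge_atTop _
  have key : ∀ R : ℕ → Finset ℕ, (∀ P b : ℕ, 1 ≤ P → 12 ≤ b → ∃ f, CandB R f P b) →
      ∀ᵐ ω ∂(Measure.infinitePi (coin z)), ∀ᶠ n : ℕ in atTop,
      ω ∉ Bad (fun m : ℕ => {ω : ℕ → Bool | ω m = true}) R n := by
    intro R hR
    apply Pool.Agent.SU33.bc
    filter_upwards [tailB_le, ZM_ok z hz, hlog, eventually_ge_atTop 3] with n hn hZ hl hn3
    obtain ⟨h1, h2, h3, h4⟩ := hn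
    obtain ⟨P, hPe⟩ : ∃ P : ℕ, P = primorial (ZM z n) := ⟨_, rfl⟩
    have hP1 : 1 ≤ P := by
      rw [hPe]
      exact primorial_pos _
    have hP1' : (1 : ℝ) ≤ P := by exact_mod_cast hP1
    obtain ⟨M, hM⟩ : ∃ M : ℝ, M = mert (ZM z n) := ⟨_, rfl⟩
    have hM1 : 1 ≤ M := by
      rw [hM]
      exact Pool.Agent.SU33.one_le_mert _
    have hMP : M ≤ P := by
      rw [hM, hPe]
      exact mert_le _
    rw [← hPe, ← hM] at hZ
    have hPl : (P : ℝ) ≤ Real.log n / 10 := by
      calc (P : ℝ) = P * 1 := (mul_one _).symm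
        _ ≤ P * M := mul_le_mul_of_nonneg_left hM1 (by linarith)
        _ ≤ _ := hZ
    have hPb : P ≤ rs n := by
      have : (P : ℝ) ≤ (rs n : ℝ) := by linarith
      exact_mod_cast this
    obtain ⟨f, hf⟩ := hR P (rs n) hP1 h2
    have hsz : rs n ^ 9 ≤ (n - 1) / 2 ∧ 2 * ((n - 1) / 2) < n := by
      have h5 := rs_le n
      obtain ⟨b, hb⟩ : ∃ b : ℕ, b = rs n := ⟨_, rfl⟩
      rw [← hb] at h5 h2 ⊢
      have h6 : 12 * b ^ 9 ≤ b ^ 16 := by
        calc 12 * b ^ 9 ≤ b * b ^ 9 := Nat.mul_le_mul_right _ h2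
          _ = b ^ 10 := by ring
          _ ≤ b ^ 16 := Nat.pow_le_pow_right (by omega) (by norm_num)
      have h7 : b ≤ b ^ 9 := Nat.le_self_pow (by norm_num) b
      omega
    have hlpos : 0 < Real.log n := by linarith
    refine (failB_le (μ := Measure.infinitePi (coin z)) hE hi (ρ := 5 * M / Real.log n)
      (P := P) (b := rs n) (h := (n - 1) / 2) ?_ ?_ ?_ ?_ ?_ hf h2 hP1 hPb (by linarith)
      hsz.1 hsz.2).trans h1
    · -- lower bound
      intro m h5 h6 h7
      rw [hp]
      unfold prob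
      have h8 : m.Coprime (primorial (z m)) := by
        rw [hPe] at h7
        exact Nat.Coprime.coprime_dvd_right
          (Pool.Agent.SU33.primorial_dvd (le_ZM z h6)) h7
      rw [if_pos h8]
      have h9 : 0 < Real.log m := Real.log_pos (by exact_mod_cast (by omega : 1 < m))
      have h10 : Real.log m ≤ Real.log n :=
        Real.log_le_log (by exact_mod_cast (by omega : 0 < m)) (by exact_mod_cast h6)
      refine le_min ?_ ?_
      · rw [div_le_one hlpos]
        linarith
      · exact div_le_div₀ (by linarith [Pool.Agent.SU33.one_le_mert (z m)])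
          (Pool.Agent.SU33.one_le_mert _) h9 h10
    · -- upper bound
      intro m h5 h6
      rw [hp]
      have h7 : Real.log n / 5 ≤ Real.log m := by
        refine h4.trans ?_
        apply Real.log_le_log
        · have : (0 : ℝ) < rs n := by exact_mod_cast (by omega : 0 < rs n)
          positivity
        · have h8 : 4 * rs n ^ 4 ≤ m := by
            have : 1 * rs n ^ 4 ≤ P * rs n ^ 4 := Nat.mul_le_mul_right _ hP1
            omega
          exact_mod_cast h8
      have h8 : 0 < Real.log m := by linarith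
      unfold prob
      split_ifs
      · refine (min_le_right _ _).trans ?_
        have h9 : mert (z m) ≤ M := by
          rw [hM]
          exact mert_mono (le_ZM z h6)
        rw [div_le_div_iff₀ h8 hlpos]
        calc mert (z m) * Real.log n ≤ M * Real.log n :=
              mul_le_mul_of_nonneg_right h9 hlpos.le
          _ ≤ 5 * M * Real.log m := by nlinarith
      · positivity
    · positivity
    · rw [div_le_div_iff₀ hlpos (by norm_num)]
      have h5 : M * M ≤ Real.log n / 10 :=
        (mul_le_mul_of_nonneg_right hMP (by linarith)).trans hZ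
      obtain ⟨l, hl'⟩ : ∃ l : ℝ, l = Real.log n := ⟨_, rfl⟩
      rw [← hl'] at h5 hl ⊢
      by_contra hcon
      push Not at hcon
      have h6 : l < 1280 * M := by linarith
      have h7 : l * l < (1280 * M) * (1280 * M) :=
        mul_lt_mul'' h6 h6 (by linarith) (by linarith)
      have h8 : (1280 * M) * (1280 * M) = 1638400 * (M * M) := by ring
      rw [h8] at h7
      have h9 : 1638400 * (M * M) ≤ 163840 * l := by linarith
      have h10 : 163840 * l ≤ l * l := mul_le_mul_of_nonneg_right (by linarith) (by linarith)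
      linarith
    · rw [mul_div_assoc', div_le_div_iff₀ hlpos (by norm_num)]
      linarith
  filter_upwards [key S1 fun P b h1 h2 => ⟨_, candB1 h1 h2⟩,
    key S2 fun P b h1 h2 => ⟨_, candB2 h1 h2⟩] with ω h1 h2
  filter_upwards [h1, h2] with n h3 h4
  unfold Bad at h3 h4
  rw [Set.mem_ofPred_eq, not_not] at h3 h4
  exact ⟨h3, h4⟩

end Pool.Agent.SG33
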